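import Pool.Agent.H21.PT.Defs

/-!
# Counting classes, the pairing lemma
-/

namespace Pool.Agent.H21.PT

open Finset

/-- two relations that generate each other have the same number of classes. -/
theorem ncl_congr {α : Type*} {r r' : α → α → Prop}
    (h : ∀ x y, r x y → Quot.mk r' x = Quot.mk r' y)
    (h' : ∀ x y, r' x y → Quot.mk r x = Quot.mk r y) : ncl r = ncl r' := by
  unfold ncl
  refine Nat.card_congr
    { toFun := Quot.lift (Quot.mk r') h
      invFun := Quot.lift (Quot.mk r) h'
      left_inv := ?_
      right_inv := ?_ }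
  · intro q
    induction q using Quot.ind
    rfl
  · intro q
    induction q using Quot.ind
    rfl

/-- a bigger relation has fewer classes. -/
theorem ncl_le {α : Type*} [Finite α] {r r' : α → α → Prop}
    (h : ∀ x y, r x y → Quot.mk r' x = Quot.mk r' y) : ncl r' ≤ ncl r := by
  unfold ncl
  have : Finite (Quot r) := Finite.of_surjective (Quot.mk r) Quot.mk_surjective
  refine Nat.card_le_card_of_surjective (Quot.lift (Quot.mk r') h) ?_
  intro q
  induction q using Quot.ind with
  | mk x => exact ⟨Quot.mk r x, rfl⟩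

/-- identification of two points in different classes. -/
theorem ncl_merge {α : Type*} [Finite α] {r r' : α → α → Prop} {p q : α}
    (hne : Quot.mk r p ≠ Quot.mk r q) (hr : ∀ x y, r x y → Quot.mk r' x = Quot.mk r' y)
    (hpq : Quot.mk r' p = Quot.mk r' q)
    (hr' : ∀ x y, r' x y → Quot.mk r x = Quot.mk r y ∨
      (Quot.mk r x = Quot.mk r p ∧ Quot.mk r y = Quot.mk r q) ∨
      (Quot.mk r x = Quot.mk r q ∧ Quot.mk r y = Quot.mk r p)) :
    ncl r' + 1 = ncl r := by
  classical
  have : Finite (Quot r) := Finite.of_surjective (Quot.mk r) Quot.mk_surjective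
  have : Finite (Quot r') := Finite.of_surjective (Quot.mk r') Quot.mk_surjective
  have : Fintype (Quot r) := Fintype.ofFinite _
  have : Fintype (Quot r') := Fintype.ofFinite _
  let g : Quot r → Quot r' := Quot.lift (Quot.mk r') hr
  let f : Quot r' → Quot r := Quot.lift
    (fun x => if Quot.mk r x = Quot.mk r q then Quot.mk r p else Quot.mk r x) (by
      intro x y hxy
      rcases hr' x y hxy with h | ⟨h1, h2⟩ | ⟨h1, h2⟩
      · simp only [h]
      · simp only [h1, h2, if_neg hne, if_true]
      · simp only [h1, h2, if_neg hne, if_true])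
  have e : Quot r' ≃ {z : Quot r // z ≠ Quot.mk r q} :=
    { toFun := fun z => ⟨f z, by
        induction z using Quot.ind with
        | mk x =>
          change (if Quot.mk r x = Quot.mk r q then Quot.mk r p else Quot.mk r x) ≠ _
          split_ifs with h
          · exact hne
          · exact h⟩
      invFun := fun z => g z.1
      left_inv := by
        intro z
        induction z using Quot.ind with
        | mk x =>
          change g (if Quot.mk r x = Quot.mk r q then Quot.mk r p else Quot.mk r x) = _
          split_ifs with h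
          · change Quot.mk r' p = Quot.mk r' x
            rw [hpq]
            change g (Quot.mk r q) = g (Quot.mk r x)
            rw [h]
          · rfl
      right_inv := by
        rintro ⟨z, hz⟩
        induction z using Quot.ind with
        | mk x =>
          apply Subtype.ext
          change (if Quot.mk r x = Quot.mk r q then Quot.mk r p else Quot.mk r x) = _
          rw [if_neg hz] }
  unfold ncl
  rw [Nat.card_congr e, Nat.card_eq_fintype_card, Nat.card_eq_fintype_card,
    Fintype.card_subtype_compl, Fintype.card_subtype_eq]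
  have : 0 < Fintype.card (Quot r) := Fintype.card_pos_iff.2 ⟨Quot.mk r q⟩
  omega

/-- colourings that are constant on the classes. -/
theorem card_invariant {α : Type*} [Fintype α] [DecidableEq α] (r : α → α → Prop) (n : ℕ)
    (P : (α → Fin n) → Prop) [DecidablePred P] (hP : ∀ κ, P κ ↔ ∀ x y, r x y → κ x = κ y) :
    (univ.filter P).card = n ^ ncl r := by
  classical
  have : Finite (Quot r) := Finite.of_surjective (Quot.mk r) Quot.mk_surjective
  have : Fintype (Quot r) := Fintype.ofFinite _
  have e : {κ : α → Fin n // P κ} ≃ (Quot r → Fin n) :=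
    { toFun := fun κ => Quot.lift κ.1 ((hP κ.1).1 κ.2)
      invFun := fun f => ⟨fun x => f (Quot.mk r x), (hP _).2 fun x y h => by rw [Quot.sound h]⟩
      left_inv := fun κ => rfl
      right_inv := fun f => by
        funext z
        induction z using Quot.ind
        rfl }
  rw [← Fintype.card_subtype, Fintype.card_congr e, Fintype.card_fun, Fintype.card_fin, ncl,
    Nat.card_eq_fintype_card]

section pairing

variable {α : Type*}

/-- arcs and links. -/
def relAT (a t : α → α) (x y : α) : Prop := y = a x ∨ y = t x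

/-- the points of the class of a point `p` that is fixed by `t`. -/
private theorem class_pow (A T : Equiv.Perm α) (hA : A * A = 1) (hT : T * T = 1) {p : α}
    (hp : T p = p) (x : α) (hx : Quot.mk (relAT A T) p = Quot.mk (relAT A T) x) :
    ∃ k : ℤ, x = ((T * A) ^ k) p := by
  have hTi : T⁻¹ = T := inv_eq_of_mul_eq_one_left hT
  have hAi : A⁻¹ = A := inv_eq_of_mul_eq_one_left hA
  have hconj : ∀ k : ℤ, T * (T * A) ^ k = (T * A) ^ (-k) * T := by
    intro k
    have h1 : T * (T * A) * T⁻¹ = (T * A)⁻¹ := by
      rw [mul_inv_rev, hTi, hAi, ← mul_assoc, hT, one_mul]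
    have h2 : T * (T * A) ^ k * T⁻¹ = (T * A) ^ (-k) := by
      rw [← conj_zpow, h1, inv_zpow, zpow_neg]
    rw [← h2, mul_assoc, inv_mul_cancel, mul_one]
  have hTk : ∀ k : ℤ, T (((T * A) ^ k) p) = ((T * A) ^ (-k)) p := by
    intro k
    have := congrArg (fun f : Equiv.Perm α => f p) (hconj k)
    simpa [Equiv.Perm.mul_apply, hp] using this
  have hAk : ∀ k : ℤ, A (((T * A) ^ k) p) = ((T * A) ^ (-(k + 1))) p := by
    intro k
    rw [← hTk (k + 1)]
    have h1 : A * (T * A) ^ k = T * (T * A) ^ (k + 1) := by
      rw [zpow_add_one, (Commute.zpow_self (T * A) k).eq, ← mul_assoc, ← mul_assoc, hT, one_mul]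
    exact congrArg (fun f : Equiv.Perm α => f p) h1
  have key : ∀ y z, relAT A T y z → ((∃ k : ℤ, y = ((T * A) ^ k) p) ↔
      ∃ k : ℤ, z = ((T * A) ^ k) p) := by
    intro y z h
    have hAA : ∀ u, A (A u) = u := fun u => by
      have := congrArg (fun f : Equiv.Perm α => f u) hA
      simpa using this
    have hTT : ∀ u, T (T u) = u := fun u => by
      have := congrArg (fun f : Equiv.Perm α => f u) hT
      simpa using this
    rcases h with rfl | rfl
    · constructor
      · rintro ⟨k, rfl⟩
        exact ⟨_, hAk k⟩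
      · rintro ⟨k, hk⟩
        exact ⟨-(k + 1), by rw [← hAk, ← hk, hAA]⟩
    · constructor
      · rintro ⟨k, rfl⟩
        exact ⟨_, hTk k⟩
      · rintro ⟨k, hk⟩
        exact ⟨-k, by rw [← hTk, ← hk, hTT]⟩
  have := congrArg (Quot.lift (fun y => ∃ k : ℤ, y = ((T * A) ^ k) p)
    (fun y z h => propext (key y z h))) hx
  have h0 : ∃ k : ℤ, p = ((T * A) ^ k) p := ⟨0, by simp⟩
  exact (iff_of_eq this).1 h0

/-- at most two fixed points of the links in one class. -/
theorem fixed_le_two {a t : α → α} (ha : ∀ x, a (a x) = x) (ht : ∀ x, t (t x) = x)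
    {p q q' : α} (hp : t p = p) (hq : t q = q) (hq' : t q' = q')
    (h : Quot.mk (relAT a t) p = Quot.mk (relAT a t) q)
    (h' : Quot.mk (relAT a t) p = Quot.mk (relAT a t) q') (hpq : p ≠ q) (hpq' : p ≠ q') :
    q = q' := by
  let A : Equiv.Perm α := Function.Involutive.toPerm a ha
  let T : Equiv.Perm α := Function.Involutive.toPerm t ht
  have hA : A * A = 1 := Equiv.ext ha
  have hT : T * T = 1 := Equiv.ext ht
  obtain ⟨i, hi⟩ := class_pow A T hA hT (p := p) hp q h
  obtain ⟨j, hj⟩ := class_pow A T hA hT (p := p) hp q' h'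
  have hTi : T⁻¹ = T := inv_eq_of_mul_eq_one_left hT
  have hAi : A⁻¹ = A := inv_eq_of_mul_eq_one_left hA
  have hTk : ∀ k : ℤ, T (((T * A) ^ k) p) = ((T * A) ^ (-k)) p := by
    intro k
    have h1 : T * (T * A) * T⁻¹ = (T * A)⁻¹ := by
      rw [mul_inv_rev, hTi, hAi, ← mul_assoc, hT, one_mul]
    have h2 : T * (T * A) ^ k * T⁻¹ = (T * A) ^ (-k) := by
      rw [← conj_zpow, h1, inv_zpow, zpow_neg]
    have h3 : T * (T * A) ^ k = (T * A) ^ (-k) * T := by
      rw [← h2, mul_assoc, inv_mul_cancel, mul_one]
    have := congrArg (fun f : Equiv.Perm α => f p) h3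
    have hp' : T p = p := hp
    simpa [Equiv.Perm.mul_apply, hp'] using this
  set L : ℤ := (Function.minimalPeriod (fun x => (T * A) • x) p : ℤ) with hL
  have hdvd : ∀ k : ℤ, ((T * A) ^ k) p = p ↔ L ∣ k := by
    intro k
    rw [← Equiv.Perm.smul_def, MulAction.zpow_smul_eq_iff_minimalPeriod_dvd]
  have h2i : L ∣ 2 * i := by
    rw [← hdvd]
    have h1 : ((T * A) ^ (-i)) p = ((T * A) ^ i) p := by
      rw [← hTk i, ← hi]
      exact hq
    rw [two_mul, zpow_add, Equiv.Perm.mul_apply, ← h1, ← Equiv.Perm.mul_apply, ← zpow_add]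
    simp
  have h2j : L ∣ 2 * j := by
    rw [← hdvd]
    have h1 : ((T * A) ^ (-j)) p = ((T * A) ^ j) p := by
      rw [← hTk j, ← hj]
      exact hq'
    rw [two_mul, zpow_add, Equiv.Perm.mul_apply, ← h1, ← Equiv.Perm.mul_apply, ← zpow_add]
    simp
  have hni : ¬ L ∣ i := by
    rw [← hdvd, ← hi]
    exact fun h => hpq h.symm
  have hnj : ¬ L ∣ j := by
    rw [← hdvd, ← hj]
    exact fun h => hpq' h.symm
  have hij : L ∣ i - j := by
    obtain ⟨u, hu⟩ := h2i
    obtain ⟨v, hv⟩ := h2j
    have hu' : Odd u := by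
      rw [← Int.not_even_iff_odd]
      rintro ⟨u', rfl⟩
      exact hni ⟨u', by linarith⟩
    have hv' : Odd v := by
      rw [← Int.not_even_iff_odd]
      rintro ⟨v', rfl⟩
      exact hnj ⟨v', by linarith⟩
    obtain ⟨u', hu'⟩ := hu'
    obtain ⟨v', hv'⟩ := hv'
    refine ⟨u' - v', ?_⟩
    subst hu' hv'
    linarith
  rw [← hdvd, sub_eq_add_neg, add_comm, zpow_add, Equiv.Perm.mul_apply, ← hi] at hij
  have : ((T * A) ^ j) (((T * A) ^ (-j)) q) = ((T * A) ^ j) p := by rw [hij]
  rw [← Equiv.Perm.mul_apply, ← zpow_add] at this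
  simpa [← hj] using this

/-- A fixed point of the links is paired with exactly one other fixed point, and the signs of the
two are different when arcs and links change the signs. -/
theorem pairing [Fintype α] {a t : α → α} (ha : ∀ x, a (a x) = x) (hfp : ∀ x, a x ≠ x)
    (ht : ∀ x, t (t x) = x) {p : α} (hp : t p = p) :
    ∃ q, q ≠ p ∧ t q = q ∧ Quot.mk (relAT a t) p = Quot.mk (relAT a t) q ∧
      (∀ q', t q' = q' → Quot.mk (relAT a t) p = Quot.mk (relAT a t) q' → q' = p ∨ q' = q) ∧
      ∀ σ : α → Bool, (∀ x, σ (a x) = !σ x) → (∀ x, t x ≠ x → σ (t x) = !σ x) → σ q = !σ p := by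
  classical
  have hca : ∀ x, Quot.mk (relAT a t) (a x) = Quot.mk (relAT a t) x := fun x =>
    (Quot.sound (show relAT a t x (a x) from Or.inl rfl)).symm
  have hct : ∀ x, Quot.mk (relAT a t) (t x) = Quot.mk (relAT a t) x := fun x =>
    (Quot.sound (show relAT a t x (t x) from Or.inr rfl)).symm
  let O : Finset α := univ.filter fun x => Quot.mk (relAT a t) p = Quot.mk (relAT a t) x
  let F : Finset α := O.filter fun x => t x = x
  have hF : F.card ≠ 1 := by
    intro h1
    have e1 : ∑ x ∈ O, (1 : ZMod 2) = 0 := by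
      refine sum_involution (fun x _ => a x) ?_ ?_ ?_ ?_
      · intro x _; decide
      · intro x _ _; exact hfp x
      · intro x hx
        simp only [O, mem_filter, mem_univ, true_and] at hx ⊢
        rw [hca, hx]
      · intro x _; exact ha x
    have e2 : ∑ x ∈ O.filter (fun x => ¬ t x = x), (1 : ZMod 2) = 0 := by
      refine sum_involution (fun x _ => t x) ?_ ?_ ?_ ?_
      · intro x _; decide
      · intro x hx _
        exact (mem_filter.1 hx).2
      · intro x hx
        simp only [O, mem_filter, mem_univ, true_and] at hx ⊢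
        rw [hct, hx.1, ht]
        exact ⟨rfl, fun h => hx.2 h.symm⟩
      · intro x _; exact ht x
    rw [← sum_filter_add_sum_filter_not O (fun x => t x = x), e2, add_zero, sum_const,
      nsmul_eq_mul, mul_one] at e1
    change ((F.card : ℕ) : ZMod 2) = 0 at e1
    rw [h1] at e1
    exact absurd e1 (by decide)
  have hpF : p ∈ F := by
    simp only [F, O, mem_filter, mem_univ, true_and]
    exact hp
  obtain ⟨q, hqF, hqp⟩ : ∃ q ∈ F, q ≠ p := by
    by_contra hc
    push Not at hc
    exact hF (card_eq_one.2 ⟨p, by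
      ext x
      rw [mem_singleton]
      exact ⟨hc x, fun h => h ▸ hpF⟩⟩)
  have hq : (Quot.mk (relAT a t) p = Quot.mk (relAT a t) q) ∧ t q = q := by
    simpa only [F, O, mem_filter, mem_univ, true_and] using hqF
  have huniq : ∀ q', t q' = q' → Quot.mk (relAT a t) p = Quot.mk (relAT a t) q' →
      q' = p ∨ q' = q := by
    intro q' h1 h2
    by_cases h3 : q' = p
    · exact Or.inl h3
    · exact Or.inr (fixed_le_two ha ht hp h1 hq.2 h2 hq.1 (fun h => h3 h.symm) (fun h => hqp h.symm))
  refine ⟨q, hqp, hq.2, hq.1, huniq, ?_⟩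
  intro σ hσa hσt
  let ε : α → ℤ := fun x => if σ x then 1 else -1
  have hε : ∀ x y, σ y = !σ x → ε x + ε y = 0 := by
    intro x y h
    simp only [ε, h]
    cases σ x <;> simp
  have e1 : ∑ x ∈ O, ε x = 0 := by
    refine sum_involution (fun x _ => a x) ?_ ?_ ?_ ?_
    · intro x _; exact hε x _ (hσa x)
    · intro x _ _; exact hfp x
    · intro x hx
      simp only [O, mem_filter, mem_univ, true_and] at hx ⊢
      rw [hca, hx]
    · intro x _; exact ha x
  have e2 : ∑ x ∈ O.filter (fun x => ¬ t x = x), ε x = 0 := by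
    refine sum_involution (fun x _ => t x) ?_ ?_ ?_ ?_
    · intro x hx; exact hε x _ (hσt x (mem_filter.1 hx).2)
    · intro x hx _
      exact (mem_filter.1 hx).2
    · intro x hx
      simp only [O, mem_filter, mem_univ, true_and] at hx ⊢
      rw [hct, hx.1, ht]
      exact ⟨rfl, fun h => hx.2 h.symm⟩
    · intro x _; exact ht x
  have hF2 : O.filter (fun x => t x = x) = {p, q} := by
    ext x
    simp only [O, mem_filter, mem_univ, true_and, mem_insert, mem_singleton]
    constructor
    · rintro ⟨h1, h2⟩
      exact huniq x h2 h1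
    · rintro (rfl | rfl)
      · exact ⟨rfl, hp⟩
      · exact hq
  rw [← sum_filter_add_sum_filter_not O (fun x => t x = x), e2, add_zero, hF2,
    sum_pair (fun h => hqp h.symm)] at e1
  simp only [ε] at e1
  cases h1 : σ p <;> cases h2 : σ q <;> simp_all

end pairing

end Pool.Agent.H21.PT
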