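import Pool.Agent.H21.PT.Cover

/-!
# Components, and the parity theorem for graphs
-/

namespace Pool.Agent.H21.PT

open Pool.Agent.H66.GD
open scoped Classical

universe u

variable {V : Type u} {G : SimpleGraph V} {w : Sym2 V → ℕ}

theorem oneUnion_adj {X : Finset (Sym2 V)} {u v : V} :
    (oneUnion G w X).Adj u v ↔ G.Adj u v ∧ (w s(u, v) = 1 ∨ s(u, v) ∈ X) := by
  unfold oneUnion
  rw [SimpleGraph.fromEdgeSet_adj, Set.mem_ofPred_eq, SimpleGraph.mem_edgeSet]
  constructor
  · rintro ⟨h, -⟩; exact h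
  · intro h; exact ⟨h, h.1.ne⟩

namespace Coding

variable {hG : Cubic G} {hw : IsWeight G w} (c : Coding hG hw)

/-- the class of a point. -/
noncomputable def kls (X : Finset (Two G w)) (p : GPt G w) : Quot (relK c.a X) :=
  Quot.mk _ (c.Φ p)

theorem kls_arc (X : Finset (Two G w)) (p : GPt G w) :
    c.kls X (arc hG hw p) = c.kls X p :=
  (Quot.sound (show relK c.a X (c.Φ p) (c.Φ (arc hG hw p)) from Or.inl (c.a_Φ p).symm)).symm

theorem kls_same (X : Finset (Two G w)) {p q : GPt G w} (hv : p.v = q.v) (hx : p.x = q.x) :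
    c.kls X p = c.kls X q :=
  Quot.sound (show relK c.a X (c.Φ p) (c.Φ q) from
    Or.inr ⟨(c.same' hv hx).1.symm, Or.inl (c.same' hv hx).2.symm⟩)

theorem kls_vertex (X : Finset (Two G w)) {p q : GPt G w} (hv : p.v = q.v) :
    c.kls X p = c.kls X q := by
  by_cases hx : p.x = q.x
  · exact c.kls_same X hv hx
  · have hqx : G.Adj p.v q.x := hv ▸ q.hx
    have hq2 : w s(p.v, q.x) = 2 := hv ▸ q.h2
    have hall : ∀ z, G.Adj p.v z → w s(p.v, z) = 2 := fun z hz =>
      all_two hG hw p.hx hqx hx p.h2 hq2 hz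
    have key : ∀ p' : GPt G w, p'.v = p.v → p'.y = q.x → c.kls X p' = c.kls X q := by
      intro p' h1 h2
      have h3 : w s(p'.v, p'.y) = 2 := by rw [h1, h2]; exact hq2
      rw [← c.kls_arc X p']
      apply c.kls_same
      · rw [arc_two hG hw p' h3]; exact h1.trans hv
      · rw [arc_two hG hw p' h3]; exact h2
    obtain ⟨h1, h2, h3, h4⟩ := third_spec hG p.hx p.hy p.ne
    rcases h4 q.x hqx with h | h | h
    · exact absurd h.symm hx
    · exact key p rfl h.symm
    · rw [← key (turn hG p) rfl h.symm]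
      exact c.kls_same X rfl rfl

/-- the edges of `X` as edges of the graph. -/
noncomputable def im (X : Finset (Two G w)) : Finset (Sym2 V) :=
  X.map (Function.Embedding.subtype _)

omit c in
theorem mem_im {X : Finset (Two G w)} {e : Sym2 V} :
    e ∈ im X ↔ ∃ h : e ∈ G.edgeSet ∧ w e = 2, (⟨e, h⟩ : Two G w) ∈ X := by
  unfold im
  rw [Finset.mem_map]
  constructor
  · rintro ⟨e', h1, rfl⟩
    exact ⟨e'.2, h1⟩
  · rintro ⟨h, h1⟩
    exact ⟨_, h1, rfl⟩

theorem adj_kls {X : Finset (Two G w)} {u v : V} (h : (oneUnion G w (im X)).Adj u v) :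
    ∃ p q : GPt G w, p.v = u ∧ q.v = v ∧ c.kls X p = c.kls X q := by
  rw [oneUnion_adj] at h
  obtain ⟨hadj, h1 | h2⟩ := h
  · obtain ⟨hm, hm2, hmu⟩ := mate_spec hG hw hadj h1
    have hne : mate G w u ≠ v := by
      intro h
      rw [h, h1] at hm2
      exact absurd hm2 (by decide)
    let p : GPt G w := ⟨u, mate G w u, v, hm, hadj, hne, hm2⟩
    have hp : w s(p.v, p.y) ≠ 2 := by
      change w s(u, v) ≠ 2
      rw [h1]; decide
    exact ⟨p, arc hG hw p, rfl, (arc_one hG hw p hp).1, (c.kls_arc X p).symm⟩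
  · rw [mem_im] at h2
    obtain ⟨⟨he, he2⟩, hX⟩ := h2
    obtain ⟨p, hp, hpx⟩ := exists_pt (w := w) hG hadj he2
    obtain ⟨q, hq, hqx⟩ := exists_pt (w := w) hG hadj.symm (by rw [Sym2.eq_swap]; exact he2)
    refine ⟨p, q, hp, hq, ?_⟩
    have h1 : (c.Φ p).1 = ⟨s(u, v), he, he2⟩ := Subtype.ext (by rw [c.edge, hp, hpx])
    have h2 : (c.Φ q).1 = ⟨s(u, v), he, he2⟩ :=
      Subtype.ext (by rw [c.edge, hq, hqx, Sym2.eq_swap])
    exact Quot.sound (show relK c.a X (c.Φ p) (c.Φ q) from
      Or.inr ⟨by rw [h1, h2], Or.inr (by rw [h1]; exact hX)⟩)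

theorem reach_kls {X : Finset (Two G w)} {u v : V} (h : (oneUnion G w (im X)).Reachable u v) :
    ∀ p q : GPt G w, p.v = u → q.v = v → c.kls X p = c.kls X q := by
  obtain ⟨W⟩ := h
  induction W with
  | nil =>
    intro p q hp hq
    exact c.kls_vertex X (hp.trans hq.symm)
  | cons hadj _ ih =>
    intro p q hp hq
    obtain ⟨p', q', hp', hq', h⟩ := c.adj_kls hadj
    rw [c.kls_vertex X (hp.trans hp'.symm), h]
    exact ih q' q hq' hq

theorem ncl_relK [Fintype V] (X : Finset (Two G w)) :
    ncl (relK c.a X) = comps (oneUnion G w (im X)) := by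
  have hr : ∀ x y, relK c.a X x y →
      (oneUnion G w (im X)).connectedComponentMk (c.Φ.symm x).v =
      (oneUnion G w (im X)).connectedComponentMk (c.Φ.symm y).v := by
    intro x y h
    rw [SimpleGraph.ConnectedComponent.eq]
    rcases h with rfl | ⟨h1, h2⟩
    · have h1 : c.Φ.symm (c.a x) = arc hG hw (c.Φ.symm x) := by
        unfold a
        rw [Equiv.symm_apply_apply]
      rw [h1]
      by_cases h2 : w s((c.Φ.symm x).v, (c.Φ.symm x).y) = 2
      · rw [arc_two hG hw _ h2]
      · rw [(arc_one hG hw _ h2).1]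
        refine SimpleGraph.Adj.reachable ?_
        rw [oneUnion_adj]
        exact ⟨(c.Φ.symm x).hy, Or.inl ((hw.1 _ (c.Φ.symm x).hy).resolve_right h2)⟩
    · have h3 : (c.Φ (c.Φ.symm x)).1 = (c.Φ (c.Φ.symm y)).1 := by
        rw [Equiv.apply_symm_apply, Equiv.apply_symm_apply, h1]
      by_cases h4 : x.2.1 = y.2.1
      · have h5 : (c.Φ (c.Φ.symm x)).2.1 = (c.Φ (c.Φ.symm y)).2.1 := by
          rw [Equiv.apply_symm_apply, Equiv.apply_symm_apply, h4]
        rw [(c.same h3 h5).1]
      · have h5 : (c.Φ (c.Φ.symm x)).2.1 ≠ (c.Φ (c.Φ.symm y)).2.1 := by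
          rw [Equiv.apply_symm_apply, Equiv.apply_symm_apply]; exact h4
        have h6 : x.1 ∈ X := h2.resolve_left fun h => h4 h.symm
        rw [(c.other h3 h5).1]
        refine SimpleGraph.Adj.reachable ?_
        rw [oneUnion_adj]
        refine ⟨(c.Φ.symm x).hx, Or.inr ?_⟩
        rw [mem_im]
        refine ⟨⟨(c.Φ.symm x).hx, (c.Φ.symm x).h2⟩, ?_⟩
        have h8 : x.1.1 = s((c.Φ.symm x).v, (c.Φ.symm x).x) := by
          have := c.edge (c.Φ.symm x)
          rwa [Equiv.apply_symm_apply] at this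
        have h7 : x.1 = ⟨s((c.Φ.symm x).v, (c.Φ.symm x).x), (c.Φ.symm x).hx, (c.Φ.symm x).h2⟩ :=
          Subtype.ext h8
        rw [← h7]
        exact h6
  unfold ncl comps
  refine Nat.card_congr (Equiv.ofBijective (Quot.lift _ hr) ⟨?_, ?_⟩)
  · intro x y h
    induction x using Quot.ind with
    | mk x =>
      induction y using Quot.ind with
      | mk y =>
        have h1 : (oneUnion G w (im X)).connectedComponentMk (c.Φ.symm x).v =
            (oneUnion G w (im X)).connectedComponentMk (c.Φ.symm y).v := h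
        rw [SimpleGraph.ConnectedComponent.eq] at h1
        have h2 := c.reach_kls h1 _ _ rfl rfl
        unfold kls at h2
        rw [Equiv.apply_symm_apply, Equiv.apply_symm_apply] at h2
        exact h2
  · intro K
    induction K using SimpleGraph.ConnectedComponent.ind with
    | h v =>
      obtain ⟨p, hp⟩ := exists_pt_at (w := w) hG hw v
      refine ⟨Quot.mk _ (c.Φ p), ?_⟩
      change (oneUnion G w (im X)).connectedComponentMk (c.Φ.symm (c.Φ p)).v = _
      rw [Equiv.symm_apply_apply, hp]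

end Coding

/-- **Parity theorem for contra pairs.** -/
theorem four_dvd_forestSum [Fintype V] (hG : Cubic G) (hw : IsWeight G w)
    (hno : ¬ FaithfulCover G w) : (4 : ℤ) ∣ forestSum G w := by
  obtain ⟨c⟩ := exists_coding hG hw
  have h1 := forest_sum_dvd c.a_a c.a_sgn fun h => hno (c.faithfulCover h)
  have h2 : forestSum G w = ∑ X ∈ Finset.univ.filter (fun X : Finset (Two G w) =>
      ncl (relK c.a X) + X.card = ncl (relK c.a ∅)), (-1) ^ X.card := by
    have h0 : Coding.im (∅ : Finset (Two G w)) = ∅ := rfl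
    unfold forestSum
    rw [Finset.sum_filter]
    symm
    refine Fintype.sum_of_injective (fun X : Finset (Two G w) => Coding.im X)
      (Finset.map_injective _) _ _ ?_ ?_
    · intro Y hY
      rw [if_neg]
      intro hF
      apply hY
      refine ⟨Y.subtype _, ?_⟩
      exact Finset.subtype_map_of_mem hF.1
    · intro X
      have h3 : (Coding.im X).card = X.card := Finset.card_map _
      have h4 : ForestOver G w (Coding.im X) ↔ ncl (relK c.a X) + X.card = ncl (relK c.a ∅) := by
        unfold ForestOver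
        rw [c.ncl_relK, c.ncl_relK, h0, h3]
        constructor
        · intro h; exact h.2
        · intro h
          refine ⟨fun e he => ?_, h⟩
          rw [Coding.mem_im] at he
          exact he.1
      by_cases h5 : ForestOver G w (Coding.im X)
      · rw [if_pos h5, if_pos (h4.1 h5), h3]
      · rw [if_neg h5, if_neg fun h => h5 (h4.2 h)]
  rw [h2]
  exact h1

end Pool.Agent.H21.PT
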