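import Pool.Agent.H21.PT.Graph

/-!
# Faithful states give faithful covers
-/

namespace Pool.Agent.H21.PT

open Pool.Agent.H66.GD
open scoped Classical

universe u

variable {V : Type u} {G : SimpleGraph V} {w : Sym2 V → ℕ}

/-- A coding of the points. -/
structure Coding (hG : Cubic G) (hw : IsWeight G w) where
  Φ : GPt G w ≃ Pt (Two G w)
  edge : ∀ p, (Φ p).1.1 = s(p.v, p.x)
  end_iff : ∀ p q, (Φ p).1 = (Φ q).1 → ((Φ p).2.1 = (Φ q).2.1 ↔ p.v = q.v)
  turned : ∀ p, Φ (turn hG p) = ((Φ p).1, (Φ p).2.1, !(Φ p).2.2)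
  sgn : ∀ p, (Φ (arc hG hw p)).2.2 = !(Φ p).2.2

theorem exists_coding (hG : Cubic G) (hw : IsWeight G w) : Nonempty (Coding hG hw) := by
  obtain ⟨σ, hσ1, hσ2⟩ := exists_sign (arc_arc hG hw) (arc_ne hG hw) (turn_turn hG)
    (turn_ne (w := w) hG)
  refine ⟨⟨Equiv.ofBijective (code σ) (code_bijective hG hσ2), fun p => rfl, ?_, ?_, ?_⟩⟩
  · intro p q h
    have h1 : s(p.v, p.x) = s(q.v, q.x) := congrArg Subtype.val h
    constructor
    · intro h2
      exact (label_end h1 h2).1.symm
    · intro h2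
      change decide (p.v = (Quot.out s(p.v, p.x)).1) = decide (q.v = (Quot.out s(q.v, q.x)).1)
      rw [h1, h2]
  · intro p
    change code σ (turn hG p) = _
    unfold code
    rw [hσ2]
    rfl
  · intro p
    exact hσ1 p

namespace Coding

variable {hG : Cubic G} {hw : IsWeight G w} (c : Coding hG hw)

/-- the arcs in the coding. -/
noncomputable def a (x : Pt (Two G w)) : Pt (Two G w) := c.Φ (arc hG hw (c.Φ.symm x))

theorem a_a (x : Pt (Two G w)) : c.a (c.a x) = x := by
  unfold a
  rw [Equiv.symm_apply_apply, arc_arc, Equiv.apply_symm_apply]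

theorem a_sgn (x : Pt (Two G w)) : (c.a x).2.2 = !x.2.2 := by
  unfold a
  rw [c.sgn, Equiv.apply_symm_apply]

theorem a_Φ (p : GPt G w) : c.a (c.Φ p) = c.Φ (arc hG hw p) := by
  unfold a
  rw [Equiv.symm_apply_apply]

theorem same {p q : GPt G w} (h : (c.Φ p).1 = (c.Φ q).1) (h' : (c.Φ p).2.1 = (c.Φ q).2.1) :
    p.v = q.v ∧ p.x = q.x := by
  have h1 := (c.end_iff p q h).1 h'
  have h2 : s(p.v, p.x) = s(q.v, q.x) := by rw [← c.edge, ← c.edge, h]
  refine ⟨h1, ?_⟩
  rw [← h1, Sym2.eq_iff] at h2
  rcases h2 with h2 | h2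
  · exact h2.2
  · exact h2.2.trans h2.1

theorem other {p q : GPt G w} (h : (c.Φ p).1 = (c.Φ q).1) (h' : (c.Φ p).2.1 ≠ (c.Φ q).2.1) :
    q.v = p.x ∧ q.x = p.v := by
  have h1 : p.v ≠ q.v := fun h1 => h' ((c.end_iff p q h).2 h1)
  have h2 : s(p.v, p.x) = s(q.v, q.x) := by rw [← c.edge, ← c.edge, h]
  rw [Sym2.eq_iff] at h2
  rcases h2 with h2 | h2
  · exact absurd h2.1 h1
  · exact ⟨h2.2.symm, h2.1.symm⟩

theorem same' {p q : GPt G w} (hv : p.v = q.v) (hx : p.x = q.x) :
    (c.Φ p).1 = (c.Φ q).1 ∧ (c.Φ p).2.1 = (c.Φ q).2.1 := by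
  have h1 : (c.Φ p).1 = (c.Φ q).1 := Subtype.ext (by rw [c.edge, c.edge, hv, hx])
  exact ⟨h1, (c.end_iff p q h1).2 hv⟩

section state

variable (s : Two G w → Fin 3)

/-- the class of a point. -/
noncomputable def cls (p : GPt G w) : Quot (relS c.a s) := Quot.mk _ (c.Φ p)

/-- the link of a point. -/
noncomputable def lnk (p : GPt G w) : GPt G w := c.Φ.symm (link s (c.Φ p))

theorem cls_arc (p : GPt G w) : c.cls s (arc hG hw p) = c.cls s p :=
  (Quot.sound (show relS c.a s (c.Φ p) (c.Φ (arc hG hw p)) from Or.inl (c.a_Φ p).symm)).symm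

theorem cls_lnk (p : GPt G w) : c.cls s (c.lnk s p) = c.cls s p := by
  unfold cls lnk
  rw [Equiv.apply_symm_apply]
  exact (Quot.sound (show relS c.a s (c.Φ p) (link s (c.Φ p)) from Or.inr rfl)).symm

variable {s}

theorem lnk_end (hs : ∀ e, s e ≠ 0) (p : GPt G w) :
    (c.lnk s p).v = p.x ∧ (c.lnk s p).x = p.v := by
  apply c.other
  · unfold lnk
    rw [Equiv.apply_symm_apply]
    rfl
  · unfold lnk
    rw [Equiv.apply_symm_apply]
    have h1 : ∀ (t : Fin 3) (b : Bool × Bool), t ≠ 0 → b.1 ≠ (lk t b).1 := by decide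
    exact h1 _ _ (hs _)

theorem cls_turn (hs : Faithful c.a s) (p : GPt G w) : c.cls s (turn hG p) ≠ c.cls s p := by
  have h0 : ∀ (e : Two G w) (b : Bool), Quot.mk (relS c.a s) (e, false, b) ≠
      Quot.mk (relS c.a s) (e, false, !b) := by
    intro e b
    cases b
    · exact hs.2 e
    · exact (hs.2 e).symm
  have h1 : ∀ (e : Two G w) (i b : Bool), Quot.mk (relS c.a s) (e, i, b) ≠
      Quot.mk (relS c.a s) (e, i, !b) := by
    intro e i b
    cases i
    · exact h0 e b
    · have h2 : ∀ x : Pt (Two G w), Quot.mk (relS c.a s) x = Quot.mk (relS c.a s) (link s x) :=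
        fun x => Quot.sound (Or.inr rfl)
      rw [h2 (e, true, b), h2 (e, true, !b)]
      have h3 : ∀ (t : Fin 3) (b : Bool), t ≠ 0 → ∃ b', lk t (true, b) = (false, b') ∧
          lk t (true, !b) = (false, !b') := by decide
      obtain ⟨b', h4, h5⟩ := h3 (s e) b (hs.1 e)
      unfold link
      simp only [h4, h5]
      exact h0 e b'
  unfold cls
  rw [c.turned]
  exact (h1 (c.Φ p).1 (c.Φ p).2.1 (c.Φ p).2.2).symm

/-- points of one class at the same vertex. -/
theorem at_vertex (hs : Faithful c.a s) {p q : GPt G w} (hc : c.cls s q = c.cls s p)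
    (hv : q.v = p.v) : (q.x = p.x ∧ q.y = p.y) ∨ (q.x = p.y ∧ q.y = p.x) := by
  by_cases hx : q.x = p.x
  · rcases same_end hG hv hx with h | h
    · left; rw [h]; exact ⟨rfl, rfl⟩
    · exfalso
      rw [h] at hc
      exact c.cls_turn hs p hc
  · right
    have hqx : G.Adj p.v q.x := hv ▸ q.hx
    have hq2 : w s(p.v, q.x) = 2 := hv ▸ q.h2
    have hall : ∀ z, G.Adj p.v z → w s(p.v, z) = 2 := fun z hz =>
      all_two hG hw p.hx hqx (Ne.symm hx) p.h2 hq2 hz
    have hp : arc hG hw p = ⟨p.v, p.y, p.x, p.hy, p.hx, p.ne.symm, hall p.y p.hy⟩ :=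
      arc_two hG hw p (hall p.y p.hy)
    have hqy2 : w s(q.v, q.y) = 2 := by
      have h1 : G.Adj p.v q.y := hv ▸ q.hy
      rw [hv]
      exact hall q.y h1
    have hq : arc hG hw q = ⟨q.v, q.y, q.x, q.hy, q.hx, q.ne.symm, hqy2⟩ := arc_two hG hw q hqy2
    have hcp : c.cls s (arc hG hw p) = c.cls s p := c.cls_arc s p
    have hcq : c.cls s (arc hG hw q) = c.cls s q := c.cls_arc s q
    have key : ∀ p' q' : GPt G w, q'.v = p'.v → q'.x = p'.x → c.cls s q' = c.cls s p' →
        q' = p' := by
      intro p' q' h1 h2 h3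
      rcases same_end hG h1 h2 with h | h
      · exact h
      · exfalso
        rw [h] at h3
        exact c.cls_turn hs p' h3
    by_cases h1 : q.x = p.y
    · have := key (arc hG hw p) q (by rw [hp]; exact hv) (by rw [hp]; exact h1) (hc.trans hcp.symm)
      rw [this, hp]
      exact ⟨rfl, rfl⟩
    · -- then `q.y` is `p.x` or `p.y`
      exfalso
      obtain ⟨-, -, -, h4⟩ := third_spec hG p.hx p.hy p.ne
      have hqy : G.Adj p.v q.y := hv ▸ q.hy
      have h5 : q.x = third G p.v p.x p.y := by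
        rcases h4 q.x hqx with h | h | h
        · exact absurd h hx
        · exact absurd h h1
        · exact h
      rcases h4 q.y hqy with h | h | h
      · have := key p (arc hG hw q) (by rw [hq]; exact hv) (by rw [hq]; exact h)
          (hcq.trans hc)
        apply h1
        rw [← this, hq]
      · have := key (arc hG hw p) (arc hG hw q) (by rw [hq, hp]; exact hv)
          (by rw [hq, hp]; exact h) (hcq.trans (hc.trans hcp.symm))
        apply hx
        have h6 := congrArg GPt.y this
        rw [hq, hp] at h6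
        exact h6
      · exact q.ne (h5.trans h.symm)

/-- The circuit of a class. -/
noncomputable def circ (s : Two G w → Fin 3) (hs : ∀ e, s e ≠ 0) (K : Quot (relS c.a s)) :
    G.Subgraph where
  verts := {u | ∃ p, c.cls s p = K ∧ p.v = u}
  Adj u u' := ∃ p, c.cls s p = K ∧ p.v = u ∧ (p.x = u' ∨ p.y = u')
  adj_sub := by
    rintro u u' ⟨p, -, rfl, rfl | rfl⟩
    · exact p.hx
    · exact p.hy
  edge_vert := by
    rintro u u' ⟨p, h, h', -⟩
    exact ⟨p, h, h'⟩
  symm := ⟨by
    rintro u u' ⟨p, hK, rfl, rfl | rfl⟩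
    · exact ⟨c.lnk s p, (c.cls_lnk s p).trans hK, (c.lnk_end hs p).1,
        Or.inl (c.lnk_end hs p).2⟩
    · by_cases h2 : w s(p.v, p.y) = 2
      · have hp := arc_two hG hw p h2
        refine ⟨c.lnk s (arc hG hw p), ((c.cls_lnk s _).trans (c.cls_arc s p)).trans hK, ?_, ?_⟩
        · rw [(c.lnk_end hs _).1, hp]
        · left
          rw [(c.lnk_end hs _).2, hp]
      · obtain ⟨h3, h4, h5⟩ := arc_one hG hw p h2
        exact ⟨arc hG hw p, (c.cls_arc s p).trans hK, h3, Or.inr h5⟩⟩

theorem circ_adj {hs : ∀ e, s e ≠ 0} {K : Quot (relS c.a s)} {u u' : V} :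
    (c.circ s hs K).Adj u u' ↔ ∃ p, c.cls s p = K ∧ p.v = u ∧ (p.x = u' ∨ p.y = u') := Iff.rfl

theorem circ_isCircuit (hs : Faithful c.a s) (K : Quot (relS c.a s)) :
    IsCircuit (c.circ s hs.1 K) := by
  constructor
  · -- connected
    have key : ∀ x y, Relation.EqvGen (relS c.a s) x y → ∀ (hx : Quot.mk (relS c.a s) x = K)
        (hy : Quot.mk (relS c.a s) y = K),
        (c.circ s hs.1 K).coe.Reachable
          ⟨(c.Φ.symm x).v, ⟨c.Φ.symm x, by rw [cls, Equiv.apply_symm_apply]; exact hx, rfl⟩⟩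
          ⟨(c.Φ.symm y).v, ⟨c.Φ.symm y, by rw [cls, Equiv.apply_symm_apply]; exact hy, rfl⟩⟩ := by
      intro x y h
      induction h with
      | rel x y h =>
        intro hx hy
        have hK : c.cls s (c.Φ.symm x) = K := by
          rw [cls, Equiv.apply_symm_apply]; exact hx
        have adj : (c.circ s hs.1 K).Adj (c.Φ.symm x).v (c.Φ.symm y).v ∨
            (c.Φ.symm x).v = (c.Φ.symm y).v := by
          rcases h with rfl | rfl
          · have h1 : c.Φ.symm (c.a x) = arc hG hw (c.Φ.symm x) := by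
              unfold a
              rw [Equiv.symm_apply_apply]
            rw [h1]
            by_cases h2 : w s((c.Φ.symm x).v, (c.Φ.symm x).y) = 2
            · right
              rw [arc_two hG hw _ h2]
            · left
              refine ⟨c.Φ.symm x, hK, rfl, Or.inr ?_⟩
              rw [(arc_one hG hw _ h2).1]
          · left
            have h1 : c.Φ.symm (link s x) = c.lnk s (c.Φ.symm x) := by
              unfold lnk
              rw [Equiv.apply_symm_apply]
            rw [h1, (c.lnk_end hs.1 _).1]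
            exact ⟨c.Φ.symm x, hK, rfl, Or.inl rfl⟩
        rcases adj with h1 | h1
        · exact SimpleGraph.Adj.reachable h1
        · have : ∀ (u v : (c.circ s hs.1 K).verts), u.1 = v.1 →
              (c.circ s hs.1 K).coe.Reachable u v := by
            intro u v h
            rw [Subtype.ext h]
          exact this _ _ h1
      | refl x => intro _ _; exact SimpleGraph.Reachable.refl _
      | symm x y _ ih => intro hx hy; exact (ih hy hx).symm
      | trans x y z h1 _ ih1 ih2 =>
        intro hx hz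
        have hy : Quot.mk (relS c.a s) y = K := by
          rw [← hx]
          exact (Quot.eqvGen_sound h1).symm
        exact (ih1 hx hy).trans (ih2 hy hz)
    have hne : ∃ p, c.cls s p = K := by
      induction K using Quot.ind with
      | mk x => exact ⟨c.Φ.symm x, by rw [cls, Equiv.apply_symm_apply]⟩
    obtain ⟨p₀, hp₀⟩ := hne
    have hn : Nonempty (c.circ s hs.1 K).verts := ⟨⟨p₀.v, p₀, hp₀, rfl⟩⟩
    refine ⟨SimpleGraph.Connected.mk ?_⟩
    rintro ⟨u, p, hp, rfl⟩ ⟨u', q, hq, rfl⟩
    have h1 := key (c.Φ p) (c.Φ q) (Quot.eqvGen_exact (hp.trans hq.symm)) hp hq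
    have : ∀ (u v u' v' : (c.circ s hs.1 K).verts), u.1 = u'.1 → v.1 = v'.1 →
        (c.circ s hs.1 K).coe.Reachable u v → (c.circ s hs.1 K).coe.Reachable u' v' := by
      intro u v u' v' h h'
      rw [Subtype.ext h, Subtype.ext h']
      exact id
    refine this _ _ _ _ ?_ ?_ h1
    · change (c.Φ.symm (c.Φ p)).v = p.v
      rw [Equiv.symm_apply_apply]
    · change (c.Φ.symm (c.Φ q)).v = q.v
      rw [Equiv.symm_apply_apply]
  · rintro v ⟨p, hp, rfl⟩
    have h1 : (c.circ s hs.1 K).neighborSet p.v = {p.x, p.y} := by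
      ext u
      rw [SimpleGraph.Subgraph.mem_neighborSet, Set.mem_insert_iff, Set.mem_singleton_iff]
      constructor
      · rintro ⟨q, hq, hqv, h⟩
        rcases c.at_vertex hs (hq.trans hp.symm) hqv with ⟨h1, h2⟩ | ⟨h1, h2⟩
        · rcases h with rfl | rfl
          · exact Or.inl h1
          · exact Or.inr h2
        · rcases h with rfl | rfl
          · exact Or.inr h1
          · exact Or.inl h2
      · rintro (rfl | rfl)
        · exact ⟨p, hp, rfl, Or.inl rfl⟩
        · exact ⟨p, hp, rfl, Or.inr rfl⟩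
    rw [h1, Set.ncard_pair p.ne]

theorem circ_count (hs : Faithful c.a s) (e : Sym2 V) (he : e ∈ G.edgeSet) :
    {K | e ∈ (c.circ s hs.1 K).edgeSet}.ncard = w e := by
  induction e using Sym2.ind with
  | _ u u' =>
    have hadj : G.Adj u u' := he
    rcases hw.1 s(u, u') he with h1 | h2
    · -- weight one
      rw [h1]
      obtain ⟨hm, hm2, hmu⟩ := mate_spec hG hw hadj h1
      have hne : mate G w u ≠ u' := by
        intro h
        rw [h, h1] at hm2
        exact absurd hm2 (by decide)
      let p : GPt G w := ⟨u, mate G w u, u', hm, hadj, hne, hm2⟩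
      have h3 : {K | s(u, u') ∈ (c.circ s hs.1 K).edgeSet} = {c.cls s p} := by
        ext K
        rw [Set.mem_ofPred_eq, SimpleGraph.Subgraph.mem_edgeSet, circ_adj, Set.mem_singleton_iff]
        constructor
        · rintro ⟨q, hq, hqv, h4⟩
          rcases h4 with h4 | h4
          · exfalso
            have := q.h2
            rw [hqv, h4, h1] at this
            exact absurd this (by decide)
          · rw [← hq]
            congr 1
            exact GPt.ext hqv (hmu q.x (hqv ▸ q.hx) (hqv ▸ q.h2)) h4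
        · rintro rfl
          exact ⟨p, rfl, rfl, Or.inr rfl⟩
      rw [h3, Set.ncard_singleton]
    · rw [h2]
      obtain ⟨p, hpv, hpx⟩ := exists_pt hG hadj h2
      have h3 : {K | s(u, u') ∈ (c.circ s hs.1 K).edgeSet} =
          {c.cls s (turn hG p), c.cls s p} := by
        ext K
        rw [Set.mem_ofPred_eq, SimpleGraph.Subgraph.mem_edgeSet, circ_adj, Set.mem_insert_iff,
          Set.mem_singleton_iff]
        constructor
        · rintro ⟨q, hq, hqv, h4⟩
          obtain ⟨q', hq', hqv', hqx'⟩ : ∃ q', c.cls s q' = K ∧ q'.v = u ∧ q'.x = u' := by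
            rcases h4 with h4 | h4
            · exact ⟨q, hq, hqv, h4⟩
            · have h5 : w s(q.v, q.y) = 2 := by rw [hqv, h4]; exact h2
              refine ⟨arc hG hw q, (c.cls_arc s q).trans hq, ?_, ?_⟩
              · rw [arc_two hG hw q h5]; exact hqv
              · rw [arc_two hG hw q h5]; exact h4
          rcases same_end hG (hqv'.trans hpv.symm) (hqx'.trans hpx.symm) with h | h
          · right; rw [← hq', h]
          · left; rw [← hq', h]
        · rintro (rfl | rfl)
          · exact ⟨turn hG p, rfl, hpv, Or.inl hpx⟩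
          · exact ⟨p, rfl, hpv, Or.inl hpx⟩
      rw [h3, Set.ncard_pair (c.cls_turn hs p)]

end state

/-- A faithful state gives a faithful cover. -/
theorem faithfulCover [Fintype V] (h : ∃ s, Faithful c.a s) : FaithfulCover G w := by
  obtain ⟨s, hs⟩ := h
  have : Finite (Quot (relS c.a s)) := Finite.of_surjective (Quot.mk _) Quot.mk_surjective
  obtain ⟨n, ⟨E⟩⟩ := Finite.exists_equiv_fin (Quot (relS c.a s))
  refine ⟨n, fun i => c.circ s hs.1 (E.symm i), fun i => c.circ_isCircuit hs _, fun e he => ?_⟩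
  rw [← c.circ_count hs e he]
  have h1 : {i | e ∈ (c.circ s hs.1 (E.symm i)).edgeSet} =
      E '' {K | e ∈ (c.circ s hs.1 K).edgeSet} := by
    ext i
    simp only [Set.mem_ofPred_eq, Set.mem_image]
    constructor
    · intro h
      exact ⟨E.symm i, h, by simp⟩
    · rintro ⟨K, hK, rfl⟩
      simpa using hK
  rw [h1, Set.ncard_image_of_injective _ E.injective]

end Coding

end Pool.Agent.H21.PT
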