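import Mathlib

/-!
# Parity theorem for contra pairs: abstract definitions
-/

namespace Pool.Agent.H21.PT

/-- The number of classes of the equivalence generated by `r`. -/
noncomputable def ncl {α : Type*} (r : α → α → Prop) : ℕ := Nat.card (Quot r)

/-- Points: an element, one of its two ends, a sign. -/
abbrev Pt (M : Type*) := M × Bool × Bool

/-- The partner of a point under the three link types. -/
def lk (t : Fin 3) (x : Bool × Bool) : Bool × Bool :=
  if t = 0 then (x.1, !x.2) else if t = 1 then (!x.1, !x.2) else (!x.1, x.2)

/-- The links of a state. -/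
def link {M : Type*} (s : M → Fin 3) (p : Pt M) : Pt M := (p.1, lk (s p.1) p.2)

/-- Arcs and links of a state. -/
def relS {M : Type*} (a : Pt M → Pt M) (s : M → Fin 3) (x y : Pt M) : Prop :=
  y = a x ∨ y = link s x

/-- Arcs, points with the same end, and all points at an element of `X`. -/
def relK {M : Type*} (a : Pt M → Pt M) (X : Finset M) (x y : Pt M) : Prop :=
  y = a x ∨ (y.1 = x.1 ∧ (y.2.1 = x.2.1 ∨ x.1 ∈ X))

/-- A faithful state: the two strands through every element are in different classes. -/
def Faithful {M : Type*} (a : Pt M → Pt M) (s : M → Fin 3) : Prop :=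
  (∀ e, s e ≠ 0) ∧ ∀ e : M, Quot.mk (relS a s) (e, false, false) ≠
    Quot.mk (relS a s) (e, false, true)

end Pool.Agent.H21.PT
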