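import Pool.Agent.H66.GD.Defs
import Pool.Agent.H21.PT.Defs

/-!
# Parity theorem for contra pairs: definitions for graphs
-/

namespace Pool.Agent.H21.PT

open Pool.Agent.H66.GD
open scoped Classical

universe u

variable {V : Type u}

/-- A faithful circuit cover: finitely many circuits (repetitions allowed) such that every edge
`e` lies in exactly `w e` of them. -/
def FaithfulCover (G : SimpleGraph V) (w : Sym2 V → ℕ) : Prop :=
  ∃ (n : ℕ) (C : Fin n → G.Subgraph), (∀ i, IsCircuit (C i)) ∧
    ∀ e ∈ G.edgeSet, {i | e ∈ (C i).edgeSet}.ncard = w e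

/-- The spanning subgraph of `G` with the edges of weight one and the edges in `X`. -/
def oneUnion (G : SimpleGraph V) (w : Sym2 V → ℕ) (X : Finset (Sym2 V)) : SimpleGraph V :=
  SimpleGraph.fromEdgeSet {e | e ∈ G.edgeSet ∧ (w e = 1 ∨ e ∈ X)}

/-- The number of connected components. -/
noncomputable def comps (H : SimpleGraph V) : ℕ := Nat.card H.ConnectedComponent

/-- `X` is a set of edges of weight two, and adding the edges of `X` one after the other to the
edges of weight one never closes a circuit: the number of components drops by `|X|`. -/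
def ForestOver (G : SimpleGraph V) (w : Sym2 V → ℕ) (X : Finset (Sym2 V)) : Prop :=
  (∀ e ∈ X, e ∈ G.edgeSet ∧ w e = 2) ∧ comps (oneUnion G w X) + X.card = comps (oneUnion G w ∅)

/-- The number of these sets `X` with even `|X|` minus the number of those with odd `|X|`. -/
noncomputable def forestSum [Fintype V] (G : SimpleGraph V) (w : Sym2 V → ℕ) : ℤ :=
  ∑ X : Finset (Sym2 V), if ForestOver G w X then (-1) ^ X.card else 0

/-- The number of edges of weight two between `S` and its complement. -/
noncomputable def crossing (G : SimpleGraph V) (w : Sym2 V → ℕ) (S : Set V) : ℕ :=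
  {e | e ∈ G.edgeSet ∧ w e = 2 ∧ ∃ u ∈ S, ∃ v ∉ S, e = s(u, v)}.ncard

end Pool.Agent.H21.PT
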