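import Pool.Agent.H21.PT.Tri

/-!
# The state sum
-/

namespace Pool.Agent.H21.PT

open Finset

variable {M : Type*} [Fintype M] [DecidableEq M]

/-- A weighted sum over the states that does not see the type at `e`. -/
theorem sum_zero {a : Pt M → Pt M} (ha : ∀ x, a (a x) = x)
    (hσ : ∀ x, (a x).2.2 = !x.2.2) (e : M) (w : (M → Fin 3) → ℤ)
    (hw : ∀ s t, w (Function.update s e t) = w s) :
    ∑ s : M → Fin 3, w s * (-2 : ℤ) ^ cc a s = 0 := by
  let g : (M → Fin 3) → ℤ := fun s => w s * (-2 : ℤ) ^ cc a s
  let φ : Fin 3 → (M → Fin 3) ≃ (M → Fin 3) := fun j =>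
    { toFun := fun s => Function.update s e (s e + j)
      invFun := fun s => Function.update s e (s e - j)
      left_inv := fun s => by simp
      right_inv := fun s => by simp }
  have h1 : ∀ j, ∑ s, g (φ j s) = ∑ s, g s := fun j => Equiv.sum_comp (φ j) g
  have h2 : ∑ j : Fin 3, ∑ s, g (φ j s) = 3 * ∑ s, g s := by
    rw [sum_congr rfl fun j _ => h1 j, sum_const, card_univ, Fintype.card_fin]
    simp
  have h3 : ∑ j : Fin 3, ∑ s, g (φ j s) = 0 := by
    rw [sum_comm]
    refine sum_eq_zero fun s _ => ?_
    have h4 : ∀ j, g (φ j s) = w s * (-2 : ℤ) ^ cc a (Function.update s e (s e + j)) := by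
      intro j
      change w (Function.update s e (s e + j)) * _ = _
      rw [hw]
      rfl
    have h6 := Equiv.sum_comp (Equiv.addLeft (s e))
      fun t => (-2 : ℤ) ^ cc a (Function.update s e t)
    simp only [Equiv.coe_addLeft] at h6
    rw [sum_congr rfl fun j _ => h4 j, ← mul_sum, h6, three_term ha hσ, mul_zero]
  have h5 : ∑ s, g s = 0 := by linarith
  exact h5

/-- The state sum. -/
noncomputable def Z (a : Pt M → Pt M) (χ : M → Fin 3 → ℤ) (x : ℤ) : ℤ :=
  ∑ s : M → Fin 3, (∏ e, χ e (s e)) * x ^ cc a s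

/-- Adding a constant to the three weights at one element. -/
theorem Z_shift {a : Pt M → Pt M} (ha : ∀ x, a (a x) = x)
    (hσ : ∀ x, (a x).2.2 = !x.2.2) (e : M) (χ χ' : M → Fin 3 → ℤ) (k : ℤ)
    (he : ∀ t, χ' e t = χ e t + k) (hne : ∀ e', e' ≠ e → χ' e' = χ e') :
    Z a χ' (-2) = Z a χ (-2) := by
  rw [← sub_eq_zero]
  unfold Z
  rw [← sum_sub_distrib]
  have h1 : ∀ s : M → Fin 3, (∏ e, χ' e (s e)) * (-2 : ℤ) ^ cc a s -
      (∏ e, χ e (s e)) * (-2 : ℤ) ^ cc a s =
      (k * ∏ e' ∈ univ.erase e, χ e' (s e')) * (-2 : ℤ) ^ cc a s := by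
    intro s
    rw [← mul_prod_erase univ (fun e => χ' e (s e)) (mem_univ e),
      ← mul_prod_erase univ (fun e => χ e (s e)) (mem_univ e), he]
    have : ∏ e' ∈ univ.erase e, χ' e' (s e') = ∏ e' ∈ univ.erase e, χ e' (s e') :=
      prod_congr rfl fun e' h => by rw [hne e' (ne_of_mem_erase h)]
    rw [this]
    ring
  rw [sum_congr rfl fun s _ => h1 s]
  refine sum_zero ha hσ e _ fun s t => ?_
  congr 1
  refine prod_congr rfl fun e' h => ?_
  rw [Function.update_of_ne (ne_of_mem_erase h)]

/-- Changing the weights `(0, 1, -1)` to `(1, 2, 0)`. -/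
theorem Z_change {a : Pt M → Pt M} (ha : ∀ x, a (a x) = x)
    (hσ : ∀ x, (a x).2.2 = !x.2.2) :
    Z a (fun _ => ![1, 2, 0]) (-2) = Z a (fun _ => ![0, 1, -1]) (-2) := by
  have key : ∀ S : Finset M, Z a (fun e => if e ∈ S then ![1, 2, 0] else ![0, 1, -1]) (-2) =
      Z a (fun _ => ![0, 1, -1]) (-2) := by
    intro S
    induction S using Finset.induction_on with
    | empty => simp
    | insert e S he ih =>
      rw [← ih]
      refine Z_shift ha hσ e _ _ 1 ?_ ?_
      · intro t
        rw [if_pos (mem_insert_self e S), if_neg he]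
        fin_cases t <;> rfl
      · intro e' h
        simp only [mem_insert, h, false_or]
  have := key univ
  simpa using this

/-- compatibility of a colouring with a type at `e`. -/
def Cmp {n : ℕ} (κ : Pt M → Fin n) (e : M) (t : Fin 3) : Prop :=
  ∀ b, κ (e, b) = κ (e, lk t b)

/-- Without faithful state the state sum vanishes at the natural numbers. -/
theorem Z_nat {a : Pt M → Pt M} (hno : ¬ ∃ s, Faithful a s) (n : ℕ) :
    Z a (fun _ => ![0, 1, -1]) n = 0 := by
  classical
  have h1 : ∀ s : M → Fin 3, ((n : ℤ)) ^ cc a s =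
      ∑ κ : Pt M → Fin n, (if ∀ x, κ x = κ (a x) then (1 : ℤ) else 0) *
        ∏ e, if Cmp κ e (s e) then (1 : ℤ) else 0 := by
    intro s
    have h2 := card_invariant (relS a s) n
      (fun κ => (∀ x, κ x = κ (a x)) ∧ ∀ e, Cmp κ e (s e)) (by
        intro κ
        constructor
        · rintro ⟨h3, h4⟩ x y (rfl | rfl)
          · exact h3 x
          · exact h4 x.1 x.2
        · intro h
          exact ⟨fun x => h _ _ (Or.inl rfl), fun e b => h (e, b) _ (Or.inr rfl)⟩)
    have h3 : ((n : ℤ)) ^ cc a s = ((n ^ ncl (relS a s) : ℕ) : ℤ) := by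
      rw [Nat.cast_pow]; rfl
    rw [h3, ← h2, card_filter, Nat.cast_sum]
    refine sum_congr rfl fun κ _ => ?_
    by_cases h4 : ∀ x, κ x = κ (a x)
    · by_cases h5 : ∀ e, Cmp κ e (s e)
      · rw [if_pos ⟨h4, h5⟩, if_pos h4, prod_congr rfl fun e _ => if_pos (h5 e)]
        simp
      · rw [if_neg (fun h => h5 h.2)]
        push Not at h5
        obtain ⟨e, he⟩ := h5
        rw [prod_eq_zero (mem_univ e) (if_neg he)]
        simp
    · rw [if_neg (fun h => h4 h.1), if_neg h4]
      simp
  unfold Z
  have h2 : ∀ s : M → Fin 3, (∏ e, (fun _ => ![0, 1, -1] : M → Fin 3 → ℤ) e (s e)) *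
      (n : ℤ) ^ cc a s = ∑ κ : Pt M → Fin n, (if ∀ x, κ x = κ (a x) then (1 : ℤ) else 0) *
        ∏ e, ((![0, 1, -1] : Fin 3 → ℤ) (s e) * if Cmp κ e (s e) then (1 : ℤ) else 0) := by
    intro s
    rw [h1, mul_sum]
    refine sum_congr rfl fun κ _ => ?_
    rw [prod_mul_distrib]
    ring
  rw [sum_congr rfl fun s _ => h2 s, sum_comm]
  refine sum_eq_zero fun κ _ => ?_
  rw [← mul_sum]
  by_cases hκ : ∀ x, κ x = κ (a x)
  swap
  · rw [if_neg hκ, zero_mul]
  rw [if_pos hκ, one_mul]
  have h3 := prod_univ_sum (fun _ : M => (univ : Finset (Fin 3)))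
    (fun e t => (![0, 1, -1] : Fin 3 → ℤ) t * if Cmp κ e t then (1 : ℤ) else 0)
  rw [Fintype.piFinset_univ] at h3
  rw [← h3]
  by_contra hne0
  have hne := prod_ne_zero_iff.1 hne0
  apply hno
  have h4 : ∀ e : M, (Cmp κ e 1 ∧ ¬ Cmp κ e 2) ∨ (¬ Cmp κ e 1 ∧ Cmp κ e 2) := by
    intro e
    have h5 := hne e (mem_univ e)
    rw [Fin.sum_univ_three] at h5
    by_cases h6 : Cmp κ e 1 <;> by_cases h7 : Cmp κ e 2
    · exact absurd (by simp [h6, h7]) h5
    · exact Or.inl ⟨h6, h7⟩
    · exact Or.inr ⟨h6, h7⟩
    · exact absurd (by simp [h6, h7]) h5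
  refine ⟨fun e => if Cmp κ e 1 then 1 else 2, ?_, ?_⟩
  · intro e
    change (if Cmp κ e 1 then (1 : Fin 3) else 2) ≠ 0
    split_ifs <;> decide
  · intro e h
    have h5 : ∀ x y, relS a (fun e => if Cmp κ e 1 then 1 else 2) x y → κ x = κ y := by
      rintro x y (rfl | rfl)
      · exact hκ x
      · change κ (x.1, x.2) = κ (x.1, lk (if Cmp κ x.1 1 then 1 else 2) x.2)
        by_cases h6 : Cmp κ x.1 1
        · rw [if_pos h6]; exact h6 x.2
        · rw [if_neg h6]
          rcases h4 x.1 with h7 | h7
          · exact absurd h7.1 h6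
          · exact h7.2 x.2
    have h6 : κ (e, (false, false)) = κ (e, (false, true)) := congrArg (Quot.lift κ h5) h
    rcases h4 e with ⟨h7, h8⟩ | ⟨h7, h8⟩
    · apply h8
      have e1 := h7 (false, false)
      have e2 := h7 (false, true)
      change κ (e, (false, false)) = κ (e, (true, true)) at e1
      change κ (e, (false, true)) = κ (e, (true, false)) at e2
      rintro ⟨i, j⟩
      cases i <;> cases j
      · change κ (e, (false, false)) = κ (e, (true, false)); rw [← e2, h6]
      · change κ (e, (false, true)) = κ (e, (true, true)); rw [← e1, h6]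
      · change κ (e, (true, false)) = κ (e, (false, false)); rw [← e2, h6]
      · change κ (e, (true, true)) = κ (e, (false, true)); rw [← e1, h6]
    · apply h7
      have e1 := h8 (false, false)
      have e2 := h8 (false, true)
      change κ (e, (false, false)) = κ (e, (true, false)) at e1
      change κ (e, (false, true)) = κ (e, (true, true)) at e2
      rintro ⟨i, j⟩
      cases i <;> cases j
      · change κ (e, (false, false)) = κ (e, (true, true)); rw [← e2, h6]
      · change κ (e, (false, true)) = κ (e, (true, false)); rw [← e1, h6]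
      · change κ (e, (true, false)) = κ (e, (false, true)); rw [← e1, h6]
      · change κ (e, (true, true)) = κ (e, (false, false)); rw [← e2, h6]

/-- Without faithful state the state sum vanishes at every integer. -/
theorem Z_int {a : Pt M → Pt M} (hno : ¬ ∃ s, Faithful a s) (x : ℤ) :
    Z a (fun _ => ![0, 1, -1]) x = 0 := by
  let P : Polynomial ℤ := ∑ s : M → Fin 3,
    Polynomial.C (∏ e, (fun _ => ![0, 1, -1] : M → Fin 3 → ℤ) e (s e)) * Polynomial.X ^ cc a s
  have hP : ∀ y : ℤ, P.eval y = Z a (fun _ => ![0, 1, -1]) y := by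
    intro y
    simp only [P, Z, Polynomial.eval_finsetSum, Polynomial.eval_mul, Polynomial.eval_C,
      Polynomial.eval_pow, Polynomial.eval_X]
  have h0 : P = 0 := by
    refine Polynomial.eq_zero_of_infinite_isRoot P ?_
    refine Set.infinite_of_injective_forall_mem (f := fun n : ℕ => (n : ℤ))
      Nat.cast_injective ?_
    intro n
    change P.eval (n : ℤ) = 0
    rw [hP, Z_nat hno]
  rw [← hP, h0, Polynomial.eval_zero]

/-- the state of type one on `X` and of type zero elsewhere. -/
def st (X : Finset M) (e : M) : Fin 3 := if e ∈ X then 1 else 0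

theorem sum_st {a : Pt M → Pt M} (ha : ∀ x, a (a x) = x)
    (hσ : ∀ x, (a x).2.2 = !x.2.2) (hno : ¬ ∃ s, Faithful a s) :
    ∑ X : Finset M, (2 : ℤ) ^ X.card * (-2) ^ cc a (st X) = 0 := by
  rw [← Z_int hno (-2), ← Z_change ha hσ]
  unfold Z
  refine Fintype.sum_of_injective (fun X : Finset M => st X) ?_ _ _ ?_ ?_
  · intro X Y h
    ext e
    have := congrFun h e
    simp only [st] at this
    by_cases h1 : e ∈ X <;> by_cases h2 : e ∈ Y <;> simp_all
  · intro s hs
    have : ∃ e, s e = 2 := by
      by_contra hc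
      push Not at hc
      refine hs ⟨univ.filter fun e => s e = 1, ?_⟩
      funext e
      have h5 : ∀ t : Fin 3, t ≠ 2 → (if t = 1 then (1 : Fin 3) else 0) = t := by decide
      simp only [st, mem_filter, mem_univ, true_and]
      exact h5 (s e) (hc e)
    obtain ⟨e, he⟩ := this
    rw [prod_eq_zero (mem_univ e) (by rw [he]; rfl), zero_mul]
  · intro X
    congr 1
    have : ∀ e, (fun _ => ![1, 2, 0] : M → Fin 3 → ℤ) e (st X e) = if e ∈ X then 2 else 1 := by
      intro e
      simp only [st]
      by_cases h : e ∈ X <;> simp [h]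
    rw [prod_congr rfl fun e _ => this e, prod_ite, prod_const, prod_const_one, mul_one]
    congr 2
    ext e; simp

/-- The invariants along the subsets. -/
theorem invariants {a : Pt M → Pt M} (ha : ∀ x, a (a x) = x)
    (hσ : ∀ x, (a x).2.2 = !x.2.2) (X : Finset M) :
    ncl (relK a X) ≤ cc a (st X) ∧ ncl (relK a ∅) ≤ ncl (relK a X) + X.card ∧
      cc a (st X) + ncl (relK a ∅) ≤ 2 * ncl (relK a X) + X.card ∧
      (cc a (st X) + X.card) % 2 = ncl (relK a ∅) % 2 := by
  have hSK : ∀ X : Finset M, ∀ x y, relS a (st X) x y →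
      Quot.mk (relK a X) x = Quot.mk (relK a X) y := by
    intro X x y h
    rcases h with rfl | rfl
    · exact Quot.sound (Or.inl rfl)
    · refine Quot.sound (Or.inr ⟨rfl, ?_⟩)
      unfold link st
      by_cases h : x.1 ∈ X
      · exact Or.inr h
      · left
        rw [if_neg h]
        rfl
  have hSK' : ∀ (X : Finset M) (x y), Quot.mk (relS a (st X)) x = Quot.mk (relS a (st X)) y →
      Quot.mk (relK a X) x = Quot.mk (relK a X) y := by
    intro X x y h
    exact congrArg (Quot.lift (Quot.mk (relK a X)) (hSK X)) h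
  have h0 : cc a (st ∅) = ncl (relK a ∅) := by
    refine ncl_congr (hSK ∅) ?_
    rintro ⟨x1, x2, x3⟩ ⟨y1, y2, y3⟩ (h | ⟨h1, h2⟩)
    · rw [h]; exact Quot.sound (Or.inl rfl)
    · change y1 = x1 at h1
      rcases h2 with h2 | h2
      · change y2 = x2 at h2
        subst h1 h2
        by_cases h3 : y3 = x3
        · rw [h3]
        · refine Quot.sound (Or.inr ?_)
          have h4 : y3 = !x3 := by cases x3 <;> cases y3 <;> simp_all
          rw [h4]
          rfl
      · exact absurd h2 (notMem_empty _)
  refine ⟨ncl_le (hSK X), ?_⟩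
  induction X using Finset.induction_on with
  | empty =>
    rw [h0]
    simp only [card_empty, add_zero, le_refl, true_and, and_true]
    omega
  | insert e X he ih =>
    obtain ⟨ih1, ih2, ih3⟩ := ih
    obtain ⟨r, t₀, hr, hr', ht, hcl⟩ := step ha hσ (st X) e
    have hu0 : Function.update (st X) e 0 = st X := by
      rw [Function.update_eq_self_iff]
      simp [st, he]
    have hu1 : Function.update (st X) e 1 = st (insert e X) := by
      funext e'
      by_cases h : e' = e
      · subst h
        simp [st]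
      · rw [Function.update_of_ne h]
        simp [st, h]
    have ht2 : t₀ ≠ 2 := ht fun e' _ => by
      simp only [st]
      split_ifs <;> decide
    have hcard : (insert e X).card = X.card + 1 := card_insert_of_notMem he
    have hKK : ∀ x y, relK a X x y → Quot.mk (relK a (insert e X)) x =
        Quot.mk (relK a (insert e X)) y := by
      intro x y h
      rcases h with h | ⟨h1, h2⟩
      · exact Quot.sound (Or.inl h)
      · exact Quot.sound (Or.inr ⟨h1, h2.imp_right mem_insert_of_mem⟩)
    have hend : ∀ i j j' : Bool, Quot.mk (relK a X) (e, (i, j)) = Quot.mk (relK a X) (e, (i, j')) :=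
      fun i j j' => Quot.sound (Or.inr ⟨rfl, Or.inl rfl⟩)
    have hcases : t₀ = 0 ∨ t₀ = 1 := by
      have h5 : ∀ t : Fin 3, t ≠ 2 → t = 0 ∨ t = 1 := by decide
      exact h5 t₀ ht2
    have hc : (t₀ = 0 ∧ cc a (st (insert e X)) + 1 = cc a (st X)) ∨
        (t₀ = 1 ∧ cc a (st (insert e X)) = cc a (st X) + 1) := by
      rcases hcases with rfl | rfl
      · left
        have := hr' 1 (by decide)
        rw [hu0] at hr
        rw [hu1] at this
        exact ⟨rfl, by omega⟩
      · right
        have := hr' 0 (by decide)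
        rw [hu1] at hr
        rw [hu0] at this
        exact ⟨rfl, by omega⟩
    by_cases hK : Quot.mk (relK a X) (e, (false, false)) = Quot.mk (relK a X) (e, (true, false))
    · have hk : ncl (relK a (insert e X)) = ncl (relK a X) := by
        refine (ncl_congr hKK ?_).symm
        rintro x y (h | ⟨h1, h2⟩)
        · exact Quot.sound (Or.inl h)
        · rcases h2 with h2 | h2
          · exact Quot.sound (Or.inr ⟨h1, Or.inl h2⟩)
          · rw [mem_insert] at h2
            rcases h2 with h2 | h2
            · obtain ⟨x1, i, j⟩ := x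
              obtain ⟨y1, i', j'⟩ := y
              change y1 = x1 at h1
              change x1 = e at h2
              subst h1 h2
              have h3 : ∀ i j, Quot.mk (relK a X) (y1, (i, j)) =
                  Quot.mk (relK a X) (y1, (false, false)) := by
                intro i j
                cases i
                · exact hend _ _ _
                · exact (hend _ _ _).trans hK.symm
              exact (h3 i j).trans (h3 i' j').symm
            · exact Quot.sound (Or.inr ⟨h1, Or.inr h2⟩)
      rw [hk, hcard]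
      omega
    · have hk : ncl (relK a (insert e X)) + 1 = ncl (relK a X) := by
        refine ncl_merge hK hKK ?_ ?_
        · exact Quot.sound (Or.inr ⟨rfl, Or.inr (mem_insert_self _ _)⟩)
        · rintro x y (h | ⟨h1, h2⟩)
          · exact Or.inl (Quot.sound (Or.inl h))
          · rcases h2 with h2 | h2
            · exact Or.inl (Quot.sound (Or.inr ⟨h1, Or.inl h2⟩))
            · rw [mem_insert] at h2
              rcases h2 with h2 | h2
              · obtain ⟨x1, i, j⟩ := x
                obtain ⟨y1, i', j'⟩ := y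
                change y1 = x1 at h1
                change x1 = e at h2
                subst h1 h2
                cases i <;> cases i'
                · exact Or.inl (hend _ _ _)
                · exact Or.inr (Or.inl ⟨hend _ _ _, hend _ _ _⟩)
                · exact Or.inr (Or.inr ⟨hend _ _ _, hend _ _ _⟩)
                · exact Or.inl (hend _ _ _)
              · exact Or.inl (Quot.sound (Or.inr ⟨h1, Or.inr h2⟩))
      have h00 : t₀ = 0 := by
        rcases hcases with h | h
        · exact h
        · exfalso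
          apply hK
          have h6 := hcl 0 (false, false)
          rw [hu0, h] at h6
          exact (hSK' X _ _ h6).trans (hend _ _ _)
      rcases hc with ⟨-, hc⟩ | ⟨h01, -⟩
      · rw [hcard]
        omega
      · rw [h00] at h01
        exact absurd h01 (by decide)

/-- **Parity theorem**, abstract form. -/
theorem forest_sum_dvd {a : Pt M → Pt M} (ha : ∀ x, a (a x) = x)
    (hσ : ∀ x, (a x).2.2 = !x.2.2) (hno : ¬ ∃ s, Faithful a s) :
    (4 : ℤ) ∣ ∑ X ∈ univ.filter (fun X : Finset M => ncl (relK a X) + X.card =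
      ncl (relK a ∅)), (-1) ^ X.card := by
  set k := ncl (relK a ∅) with hk
  have h1 : ∀ X : Finset M, ((2 : ℤ) ^ (k + 2)) ∣ ((-2 : ℤ) ^ k *
      (if ncl (relK a X) + X.card = k then (-1) ^ X.card else 0) -
      2 ^ X.card * (-2) ^ cc a (st X)) := by
    intro X
    obtain ⟨h2, h3, h4, h5⟩ := invariants ha hσ X
    by_cases h6 : ncl (relK a X) + X.card = k
    · rw [if_pos h6]
      have h7 : cc a (st X) = ncl (relK a X) := by omega
      have h9 : (-2 : ℤ) ^ k = (-2) ^ ncl (relK a X) * (-2) ^ X.card := by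
        rw [← h6, pow_add]
      rw [h7, h9]
      have h8 : (2 : ℤ) ^ X.card * (-2) ^ ncl (relK a X) =
          (-2) ^ ncl (relK a X) * (-2) ^ X.card * (-1) ^ X.card := by
        rw [mul_assoc, ← mul_pow]
        norm_num
        ring
      rw [h8, sub_self]
      exact dvd_zero _
    · rw [if_neg h6, mul_zero, zero_sub, dvd_neg]
      have h7 : k + 2 ≤ X.card + cc a (st X) := by omega
      have h8 : (2 : ℤ) ^ X.card * (-2) ^ cc a (st X) =
          2 ^ (X.card + cc a (st X)) * (-1) ^ cc a (st X) := by
        rw [pow_add, mul_assoc, ← mul_pow]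
        norm_num
      rw [h8]
      exact Dvd.dvd.mul_right (pow_dvd_pow 2 h7) _
  have h2 : ((2 : ℤ) ^ (k + 2)) ∣ (-2 : ℤ) ^ k *
      ∑ X ∈ univ.filter (fun X : Finset M => ncl (relK a X) + X.card = k), (-1) ^ X.card := by
    have h3 := dvd_sum fun X (_ : X ∈ (univ : Finset (Finset M))) => h1 X
    rw [sum_sub_distrib, sum_st ha hσ hno, sub_zero, ← mul_sum, ← sum_filter] at h3
    exact h3
  have h3 : (-2 : ℤ) ^ k = 2 ^ k * (-1) ^ k := by
    rw [← mul_pow]; norm_num
  rw [h3, pow_add, mul_assoc] at h2
  have h4 := (mul_dvd_mul_iff_left (by positivity : (2 : ℤ) ^ k ≠ 0)).1 h2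
  have h5 : IsUnit ((-1 : ℤ) ^ k) := IsUnit.pow _ (by norm_num)
  rw [h5.dvd_mul_left] at h4
  norm_num at h4
  exact h4

end Pool.Agent.H21.PT
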