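import Pool.Agent.H21.PT.GDefs
import Pool.Agent.H21.PT.Sum

/-!
# The points of a weighted cubic graph
-/

namespace Pool.Agent.H21.PT

open Pool.Agent.H66.GD
open scoped Classical

universe u

/-! ### Signs -/

theorem exists_anti {Q : Type*} (ι : Q → Q) (hι : ∀ q, ι (ι q) = q) (hne : ∀ q, ι q ≠ q) :
    ∃ σ : Q → Bool, ∀ q, σ (ι q) = !σ q := by
  refine ⟨fun q => decide (WellOrderingRel q (ι q)), fun q => ?_⟩
  change decide (WellOrderingRel (ι q) (ι (ι q))) = _
  rw [hι]
  rcases trichotomous_of WellOrderingRel q (ι q) with h | h | h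
  · have h' : ¬ WellOrderingRel (ι q) q := fun h' => asymm h h'
    simp [h, h']
  · exact absurd h.symm (hne q)
  · have h' : ¬ WellOrderingRel q (ι q) := fun h' => asymm h h'
    simp [h, h']

/-- Two involutions without fixed points have a common sign function. -/
theorem exists_sign {α : Type*} {a t : α → α} (ha : ∀ x, a (a x) = x) (hfa : ∀ x, a x ≠ x)
    (ht : ∀ x, t (t x) = x) (hft : ∀ x, t x ≠ x) :
    ∃ σ : α → Bool, (∀ x, σ (a x) = !σ x) ∧ ∀ x, σ (t x) = !σ x := by
  let A : Equiv.Perm α := Function.Involutive.toPerm a ha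
  let T : Equiv.Perm α := Function.Involutive.toPerm t ht
  have hA : A * A = 1 := Equiv.ext ha
  have hT : T * T = 1 := Equiv.ext ht
  have hTi : T⁻¹ = T := inv_eq_of_mul_eq_one_left hT
  have hAi : A⁻¹ = A := inv_eq_of_mul_eq_one_left hA
  have hAk : ∀ (k : ℤ) x, A (((T * A) ^ k) x) = ((T * A) ^ (-k)) (A x) := by
    intro k x
    have h1 : A * (T * A) * A⁻¹ = (T * A)⁻¹ := by
      rw [mul_inv_rev, hTi, hAi, mul_assoc, mul_assoc, hA, mul_one]
    have h2 : A * (T * A) ^ k * A⁻¹ = (T * A) ^ (-k) := by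
      rw [← conj_zpow, h1, inv_zpow, zpow_neg]
    have h3 : A * (T * A) ^ k = (T * A) ^ (-k) * A := by
      rw [← h2, mul_assoc, inv_mul_cancel, mul_one]
    exact congrArg (fun f : Equiv.Perm α => f x) h3
  have hT' : ∀ x, T x = (T * A) (A x) := by
    intro x
    change T x = T (A (A x))
    rw [show A (A x) = x from ha x]
  let S : Setoid α := Equiv.Perm.SameCycle.setoid (T * A)
  let ι : Quotient S → Quotient S := Quotient.map A (by
    rintro x y ⟨k, hk⟩
    refine ⟨-k, ?_⟩
    rw [← hk, ← hAk])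
  obtain ⟨σ, hσ⟩ := exists_anti ι (by
    intro q
    induction q using Quotient.inductionOn with
    | h x => exact congrArg (Quotient.mk S) (ha x)) (by
    intro q
    induction q using Quotient.inductionOn with
    | h x =>
      intro h
      have h0 : (T * A).SameCycle (A x) x := Quotient.exact h
      obtain ⟨k, hk⟩ := h0.symm
      rcases Int.even_or_odd' k with ⟨j, rfl | rfl⟩
      · apply hfa (((T * A) ^ j) x)
        change A (((T * A) ^ j) x) = _
        rw [hAk, ← hk, ← Equiv.Perm.mul_apply, ← zpow_add]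
        congr 2
        ring
      · apply hft (((T * A) ^ (j + 1)) x)
        change T (((T * A) ^ (j + 1)) x) = _
        rw [hT', hAk, ← hk, ← Equiv.Perm.mul_apply, ← Equiv.Perm.mul_apply, ← zpow_one_add,
          ← zpow_add]
        congr 2
        ring)
  refine ⟨fun x => σ (Quotient.mk S x), fun x => hσ (Quotient.mk S x), fun x => ?_⟩
  have h1 : Quotient.mk S (t x) = Quotient.mk S (a x) := by
    refine Quotient.sound ?_
    refine Equiv.Perm.SameCycle.symm ⟨1, ?_⟩
    rw [zpow_one]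
    exact (hT' x).symm
  change σ (Quotient.mk S (t x)) = _
  rw [h1]
  exact hσ (Quotient.mk S x)

/-! ### Local structure -/

variable {V : Type u} {G : SimpleGraph V} {w : Sym2 V → ℕ}

/-- the third neighbour. -/
noncomputable def third (G : SimpleGraph V) (v x y : V) : V :=
  if h : ∃ z, G.Adj v z ∧ z ≠ x ∧ z ≠ y then h.choose else v

theorem third_spec (hG : Cubic G) {v x y : V} (hx : G.Adj v x) (hy : G.Adj v y) (hxy : x ≠ y) :
    G.Adj v (third G v x y) ∧ third G v x y ≠ x ∧ third G v x y ≠ y ∧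
      ∀ z, G.Adj v z → z = x ∨ z = y ∨ z = third G v x y := by
  have hfin : (G.neighborSet v).Finite := Set.finite_of_ncard_ne_zero (by rw [hG v]; decide)
  have hex : ∃ z, G.Adj v z ∧ z ≠ x ∧ z ≠ y := by
    have h1 : ({x, y} : Set V).ncard < (G.neighborSet v).ncard := by
      rw [hG v, Set.ncard_pair hxy]; decide
    obtain ⟨z, hz, hz'⟩ := Set.exists_mem_notMem_of_ncard_lt_ncard h1
    rw [Set.mem_insert_iff, Set.mem_singleton_iff, not_or] at hz'
    exact ⟨z, hz, hz'⟩
  have h1 := hex.choose_spec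
  have h2 : third G v x y = hex.choose := dif_pos hex
  rw [← h2] at h1
  refine ⟨h1.1, h1.2.1, h1.2.2, fun z hz => ?_⟩
  have h3 : ({x, y, third G v x y} : Set V) ⊆ G.neighborSet v := by
    intro u hu
    rw [Set.mem_insert_iff, Set.mem_insert_iff, Set.mem_singleton_iff] at hu
    rcases hu with rfl | rfl | rfl
    · exact hx
    · exact hy
    · exact h1.1
  have h4 : ({x, y, third G v x y} : Set V).ncard = 3 := by
    rw [Set.ncard_eq_three]
    exact ⟨x, y, _, hxy, h1.2.1.symm, h1.2.2.symm, rfl⟩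
  have h5 := Set.eq_of_subset_of_ncard_le h3 (by rw [h4, hG v]) hfin
  have h6 : z ∈ ({x, y, third G v x y} : Set V) := by rw [h5]; exact hz
  rw [Set.mem_insert_iff, Set.mem_insert_iff, Set.mem_singleton_iff] at h6
  exact h6

theorem exists_nbr_ne (hG : Cubic G) (v x : V) : ∃ y, G.Adj v y ∧ y ≠ x := by
  have hfin : (G.neighborSet v).Finite := Set.finite_of_ncard_ne_zero (by rw [hG v]; decide)
  have h1 : ({x} : Set V).ncard < (G.neighborSet v).ncard := by
    rw [hG v, Set.ncard_singleton]; decide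
  obtain ⟨z, hz, hz'⟩ := Set.exists_mem_notMem_of_ncard_lt_ncard h1
  exact ⟨z, hz, hz'⟩

/-- a vertex on an edge of weight one has exactly one edge of weight two. -/
theorem exists_mate (hG : Cubic G) (hw : IsWeight G w) {v y : V} (hy : G.Adj v y)
    (h1 : w s(v, y) = 1) :
    ∃ z, G.Adj v z ∧ w s(v, z) = 2 ∧ ∀ z', G.Adj v z' → w s(v, z') = 2 → z' = z := by
  obtain ⟨b, hb, hby⟩ := exists_nbr_ne hG v y
  obtain ⟨hc, hcy, hcb, hall⟩ := third_spec hG hy hb hby.symm
  set c := third G v y b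
  have hE := hw.2 v
  have hwb := hw.1 s(v, b) hb
  have hwc := hw.1 s(v, c) hc
  have hO : ∀ u, u ∈ {u | G.Adj v u ∧ Odd (w s(v, u))} ↔ G.Adj v u ∧ w s(v, u) = 1 := by
    intro u
    constructor
    · rintro ⟨h2, h3⟩
      refine ⟨h2, ?_⟩
      rcases hw.1 s(v, u) h2 with h4 | h4
      · exact h4
      · rw [h4] at h3; exact absurd h3 (by decide)
    · rintro ⟨h2, h3⟩
      refine ⟨h2, ?_⟩
      rw [h3]; decide
  rcases hwb with hwb | hwb <;> rcases hwc with hwc | hwc
  · exfalso
    have h2 : {u | G.Adj v u ∧ Odd (w s(v, u))} = ({y, b, c} : Set V) := by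
      ext u
      rw [hO, Set.mem_insert_iff, Set.mem_insert_iff, Set.mem_singleton_iff]
      constructor
      · rintro ⟨h2, -⟩; exact hall u h2
      · rintro (rfl | rfl | rfl)
        · exact ⟨hy, h1⟩
        · exact ⟨hb, hwb⟩
        · exact ⟨hc, hwc⟩
    have h3 : ({y, b, c} : Set V).ncard = 3 := by
      rw [Set.ncard_eq_three]
      exact ⟨y, b, c, hby.symm, hcy.symm, hcb.symm, rfl⟩
    rw [h2, h3] at hE
    exact absurd hE (by decide)
  · refine ⟨c, hc, hwc, fun z' hz' h2 => ?_⟩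
    rcases hall z' hz' with rfl | rfl | h
    · rw [h1] at h2; exact absurd h2 (by decide)
    · rw [hwb] at h2; exact absurd h2 (by decide)
    · exact h
  · refine ⟨b, hb, hwb, fun z' hz' h2 => ?_⟩
    rcases hall z' hz' with rfl | rfl | rfl
    · rw [h1] at h2; exact absurd h2 (by decide)
    · rfl
    · rw [hwc] at h2; exact absurd h2 (by decide)
  · exfalso
    have h2 : {u | G.Adj v u ∧ Odd (w s(v, u))} = ({y} : Set V) := by
      ext u
      rw [hO, Set.mem_singleton_iff]
      constructor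
      · rintro ⟨h2, h3⟩
        rcases hall u h2 with rfl | rfl | rfl
        · rfl
        · rw [hwb] at h3; exact absurd h3 (by decide)
        · rw [hwc] at h3; exact absurd h3 (by decide)
      · rintro rfl
        exact ⟨hy, h1⟩
    rw [h2, Set.ncard_singleton] at hE
    exact absurd hE (by decide)

/-- the neighbour along the edge of weight two. -/
noncomputable def mate (G : SimpleGraph V) (w : Sym2 V → ℕ) (v : V) : V :=
  if h : ∃ z, G.Adj v z ∧ w s(v, z) = 2 then h.choose else v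

theorem mate_spec (hG : Cubic G) (hw : IsWeight G w) {v y : V} (hy : G.Adj v y)
    (h1 : w s(v, y) = 1) :
    G.Adj v (mate G w v) ∧ w s(v, mate G w v) = 2 ∧
      ∀ z', G.Adj v z' → w s(v, z') = 2 → z' = mate G w v := by
  obtain ⟨z, hz, hz2, hu⟩ := exists_mate hG hw hy h1
  have hex : ∃ z, G.Adj v z ∧ w s(v, z) = 2 := ⟨z, hz, hz2⟩
  have h2 : mate G w v = hex.choose := dif_pos hex
  have h3 := hex.choose_spec
  rw [← h2] at h3
  refine ⟨h3.1, h3.2, fun z' hz' h4 => ?_⟩
  rw [hu z' hz' h4, hu _ h3.1 h3.2]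

/-- a vertex with two edges of weight two has only edges of weight two. -/
theorem all_two (hG : Cubic G) (hw : IsWeight G w) {v x y : V} (hx : G.Adj v x) (hy : G.Adj v y)
    (hxy : x ≠ y) (hx2 : w s(v, x) = 2) (hy2 : w s(v, y) = 2) {z : V} (hz : G.Adj v z) :
    w s(v, z) = 2 := by
  rcases hw.1 s(v, z) hz with h | h
  · obtain ⟨m, -, -, hu⟩ := exists_mate hG hw hz h
    exact absurd ((hu x hx hx2).trans (hu y hy hy2).symm) hxy
  · exact h

/-! ### Points -/

/-- A point: the edge `v x` of weight two and another edge `v y` at `v`. -/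
@[ext]
structure GPt (G : SimpleGraph V) (w : Sym2 V → ℕ) where
  v : V
  x : V
  y : V
  hx : G.Adj v x
  hy : G.Adj v y
  ne : x ≠ y
  h2 : w s(v, x) = 2

/-- the other point with the same edge and the same end. -/
noncomputable def turn (hG : Cubic G) (p : GPt G w) : GPt G w where
  v := p.v
  x := p.x
  y := third G p.v p.x p.y
  hx := p.hx
  hy := (third_spec hG p.hx p.hy p.ne).1
  ne := (third_spec hG p.hx p.hy p.ne).2.1.symm
  h2 := p.h2

theorem turn_turn (hG : Cubic G) (p : GPt G w) : turn hG (turn hG p) = p := by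
  refine GPt.ext rfl rfl ?_
  obtain ⟨h1, h2, h3, h4⟩ := third_spec hG p.hx p.hy p.ne
  obtain ⟨h5, h6, h7, h8⟩ := third_spec hG p.hx h1 h2.symm
  rcases h8 p.y p.hy with h | h | h
  · exact absurd h.symm p.ne
  · exact absurd h.symm h3
  · exact h.symm

theorem turn_ne (hG : Cubic G) (p : GPt G w) : turn hG p ≠ p := by
  intro h
  have := congrArg GPt.y h
  exact (third_spec hG p.hx p.hy p.ne).2.2.1 this

/-- points with the same edge and the same end. -/
theorem same_end (hG : Cubic G) {p q : GPt G w} (hv : q.v = p.v) (hx : q.x = p.x) :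
    q = p ∨ q = turn hG p := by
  obtain ⟨h1, h2, h3, h4⟩ := third_spec hG p.hx p.hy p.ne
  have hqy : G.Adj p.v q.y := hv ▸ q.hy
  rcases h4 q.y hqy with h | h | h
  · exact absurd (hx.trans h.symm) q.ne
  · exact Or.inl (GPt.ext hv hx h)
  · exact Or.inr (GPt.ext hv hx h)

/-- the next point on the way. -/
noncomputable def arc (hG : Cubic G) (hw : IsWeight G w) (p : GPt G w) : GPt G w :=
  if h : w s(p.v, p.y) = 2 then ⟨p.v, p.y, p.x, p.hy, p.hx, p.ne.symm, h⟩
  else
    have h1 : w s(p.y, p.v) = 1 := by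
      rw [Sym2.eq_swap]
      exact (hw.1 s(p.v, p.y) p.hy).resolve_right h
    ⟨p.y, mate G w p.y, p.v, (mate_spec hG hw p.hy.symm h1).1, p.hy.symm,
      fun h3 => by
        have := (mate_spec hG hw p.hy.symm h1).2.1
        rw [h3, h1] at this
        exact absurd this (by decide),
      (mate_spec hG hw p.hy.symm h1).2.1⟩

theorem arc_two (hG : Cubic G) (hw : IsWeight G w) (p : GPt G w) (h : w s(p.v, p.y) = 2) :
    arc hG hw p = ⟨p.v, p.y, p.x, p.hy, p.hx, p.ne.symm, h⟩ := dif_pos h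

theorem arc_one (hG : Cubic G) (hw : IsWeight G w) (p : GPt G w) (h : w s(p.v, p.y) ≠ 2) :
    (arc hG hw p).v = p.y ∧ (arc hG hw p).x = mate G w p.y ∧ (arc hG hw p).y = p.v := by
  unfold arc
  rw [dif_neg h]
  exact ⟨rfl, rfl, rfl⟩

theorem arc_arc (hG : Cubic G) (hw : IsWeight G w) (p : GPt G w) :
    arc hG hw (arc hG hw p) = p := by
  by_cases h : w s(p.v, p.y) = 2
  · rw [arc_two hG hw p h]
    rw [arc_two]
  · obtain ⟨h1, h2, h3⟩ := arc_one hG hw p h
    have h4 : w s((arc hG hw p).v, (arc hG hw p).y) ≠ 2 := by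
      rw [h1, h3, Sym2.eq_swap]; exact h
    obtain ⟨h5, h6, h7⟩ := arc_one hG hw _ h4
    refine GPt.ext (h5.trans h3) ?_ (h7.trans h1)
    rw [h6, h3]
    exact ((mate_spec hG hw p.hy ((hw.1 s(p.v, p.y) p.hy).resolve_right h)).2.2 p.x p.hx p.h2).symm

theorem arc_ne (hG : Cubic G) (hw : IsWeight G w) (p : GPt G w) : arc hG hw p ≠ p := by
  intro h0
  by_cases h : w s(p.v, p.y) = 2
  · rw [arc_two hG hw p h] at h0
    exact p.ne (congrArg GPt.y h0)
  · obtain ⟨h1, h2, h3⟩ := arc_one hG hw p h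
    rw [h0] at h1
    exact p.hy.ne h1

theorem exists_pt (hG : Cubic G) {v x : V} (hx : G.Adj v x) (h2 : w s(v, x) = 2) :
    ∃ p : GPt G w, p.v = v ∧ p.x = x := by
  obtain ⟨y, hy, hne⟩ := exists_nbr_ne hG v x
  exact ⟨⟨v, x, y, hx, hy, hne.symm, h2⟩, rfl, rfl⟩

theorem exists_pt_at (hG : Cubic G) (hw : IsWeight G w) (v : V) : ∃ p : GPt G w, p.v = v := by
  obtain ⟨y, hy, -⟩ := exists_nbr_ne hG v v
  rcases hw.1 s(v, y) hy with h | h
  · obtain ⟨z, hz, hz2, -⟩ := exists_mate hG hw hy h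
    obtain ⟨p, hp, -⟩ := exists_pt hG hz hz2
    exact ⟨p, hp⟩
  · obtain ⟨p, hp, -⟩ := exists_pt hG hy h
    exact ⟨p, hp⟩

/-! ### The coding -/

/-- The edges of weight two. -/
abbrev Two (G : SimpleGraph V) (w : Sym2 V → ℕ) := {e : Sym2 V // e ∈ G.edgeSet ∧ w e = 2}

/-- the code of a point. -/
noncomputable def code (σ : GPt G w → Bool) (p : GPt G w) : Pt (Two G w) :=
  (⟨s(p.v, p.x), p.hx, p.h2⟩, decide (p.v = (Quot.out s(p.v, p.x)).1), σ p)

theorem out_eq (e : Sym2 V) : s((Quot.out e).1, (Quot.out e).2) = e := Quot.out_eq e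

/-- points with the same edge and the same label of the end have the same end. -/
theorem label_end {p q : GPt G w} (he : s(p.v, p.x) = s(q.v, q.x))
    (hl : decide (p.v = (Quot.out s(p.v, p.x)).1) = decide (q.v = (Quot.out s(q.v, q.x)).1)) :
    q.v = p.v ∧ q.x = p.x := by
  rw [← he] at hl
  have h1 : (p.v = (Quot.out s(p.v, p.x)).1) ↔ (q.v = (Quot.out s(p.v, p.x)).1) := by
    simpa using hl
  rw [Sym2.eq_iff] at he
  rcases he with ⟨h, h'⟩ | ⟨h, h'⟩
  · exact ⟨h.symm, h'.symm⟩
  · exfalso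
    have h2 := out_eq s(p.v, p.x)
    rw [Sym2.eq_iff] at h2
    rcases h2 with ⟨h2, -⟩ | ⟨h2, -⟩
    · have h3 := h1.1 h2.symm
      rw [h2, ← h'] at h3
      exact p.hx.ne h3.symm
    · have h3 := h1.2 (by rw [h2, h'])
      rw [h2] at h3
      exact p.hx.ne h3

theorem code_bijective (hG : Cubic G) {σ : GPt G w → Bool}
    (hσ : ∀ p, σ (turn hG p) = !σ p) : Function.Bijective (code σ) := by
  constructor
  · intro p q h
    have h1 : s(p.v, p.x) = s(q.v, q.x) := congrArg (fun z : Pt (Two G w) => z.1.1) h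
    have h2 : decide (p.v = (Quot.out s(p.v, p.x)).1) =
        decide (q.v = (Quot.out s(q.v, q.x)).1) := congrArg (fun z : Pt (Two G w) => z.2.1) h
    have h3 : σ p = σ q := congrArg (fun z : Pt (Two G w) => z.2.2) h
    obtain ⟨h4, h5⟩ := label_end h1 h2
    rcases same_end hG h4 h5 with h6 | h6
    · exact h6.symm
    · rw [h6, hσ] at h3
      cases h7 : σ p <;> simp_all
  · rintro ⟨⟨e, he, he2⟩, i, b⟩
    have h0 := out_eq e
    have hadj : G.Adj (Quot.out e).1 (Quot.out e).2 := by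
      rw [← SimpleGraph.mem_edgeSet, h0]; exact he
    have key : ∀ p : GPt G w, s(p.v, p.x) = e → decide (p.v = (Quot.out e).1) = i →
        ∃ q, code σ q = (⟨e, he, he2⟩, i, b) := by
      intro p hp hi
      by_cases hb : σ p = b
      · refine ⟨p, ?_⟩
        subst hp hi hb
        rfl
      · refine ⟨turn hG p, ?_⟩
        have hb' : σ (turn hG p) = b := by
          rw [hσ]
          cases h1 : σ p <;> cases h2 : b <;> simp_all
        subst hp hi hb'
        rfl
    cases i
    · obtain ⟨p, hp, hp'⟩ := exists_pt (w := w) hG hadj.symm (by rw [Sym2.eq_swap, h0]; exact he2)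
      refine key p (by rw [hp, hp', Sym2.eq_swap, h0]) ?_
      rw [hp]
      simp only [decide_eq_false_iff_not]
      exact hadj.ne.symm
    · obtain ⟨p, hp, hp'⟩ := exists_pt (w := w) hG hadj (by rw [h0]; exact he2)
      refine key p (by rw [hp, hp', h0]) ?_
      rw [hp]
      simp

end Pool.Agent.H21.PT
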