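import Pool.Agent.H21.PT.Cls

/-!
# The three states at one element
-/

namespace Pool.Agent.H21.PT

open Finset

variable {M : Type*}

theorem lk_lk (t : Fin 3) (x : Bool × Bool) : lk t (lk t x) = x := by
  revert t x; decide

theorem lk_comm (t t' : Fin 3) (x : Bool × Bool) : lk t (lk t' x) = lk t' (lk t x) := by
  revert t t' x; decide

theorem lk_ne (t : Fin 3) (x : Bool × Bool) : lk t x ≠ x := by
  revert t x; decide

theorem lk_cases (t t' : Fin 3) (h : t ≠ t') (x : Bool × Bool) :
    x = (false, false) ∨ x = lk t' (false, false) ∨ x = lk t (false, false) ∨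
      x = lk t' (lk t (false, false)) := by
  revert t t' x; decide

theorem link_link (s : M → Fin 3) (x : Pt M) : link s (link s x) = x := by
  obtain ⟨e, b⟩ := x
  change (e, lk (s e) (lk (s e) b)) = (e, b)
  rw [lk_lk]

theorem link_ne (s : M → Fin 3) (x : Pt M) : link s x ≠ x := by
  obtain ⟨e, b⟩ := x
  intro h
  exact lk_ne (s e) b (Prod.mk.inj h).2

/-- The number of classes of a state. -/
noncomputable def cc (a : Pt M → Pt M) (s : M → Fin 3) : ℕ := ncl (relS a s)

variable [DecidableEq M]

/-- the links off `e`. -/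
def tOff (s : M → Fin 3) (e : M) (x : Pt M) : Pt M := if x.1 = e then x else link s x

theorem tOff_tOff (s : M → Fin 3) (e : M) (x : Pt M) : tOff s e (tOff s e x) = x := by
  unfold tOff
  by_cases h : x.1 = e
  · rw [if_pos h, if_pos h]
  · have h' : ¬ (link s x).1 = e := h
    rw [if_neg h, if_neg h', link_link]

theorem tOff_fixed {s : M → Fin 3} {e : M} {x : Pt M} : tOff s e x = x ↔ x.1 = e := by
  unfold tOff
  by_cases h : x.1 = e
  · simp [h]
  · simp only [h, iff_false]
    exact link_ne s x

/-- the pairing of the four points at `e`. -/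
theorem exists_type [Fintype M] {a : Pt M → Pt M} (ha : ∀ x, a (a x) = x)
    (hσ : ∀ x, (a x).2.2 = !x.2.2) (s : M → Fin 3) (e : M) :
    ∃ t₀ : Fin 3, (∀ b, Quot.mk (relAT a (tOff s e)) (e, b) =
        Quot.mk (relAT a (tOff s e)) (e, lk t₀ b)) ∧
      (∀ t, t ≠ t₀ → Quot.mk (relAT a (tOff s e)) (e, (false, false)) ≠
        Quot.mk (relAT a (tOff s e)) (e, lk t (false, false))) ∧
      ((∀ e', e' ≠ e → s e' ≠ 2) → t₀ ≠ 2) := by
  have hfp : ∀ x, a x ≠ x := by
    intro x h
    have := hσ x
    rw [h] at this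
    cases h2 : x.2.2 <;> simp_all
  obtain ⟨q, hqp, hq, hpq, huniq, hsig⟩ := pairing ha hfp (tOff_tOff s e)
    (p := (e, (false, false))) (tOff_fixed.2 rfl)
  have hqe : q.1 = e := tOff_fixed.1 hq
  obtain ⟨t₀, ht₀⟩ : ∃ t₀ : Fin 3, q = (e, lk t₀ (false, false)) := by
    obtain ⟨q1, q2⟩ := q
    change q1 = e at hqe
    subst hqe
    have : q2 ≠ (false, false) := fun h => hqp (by rw [h])
    have h3 : ∀ q2 : Bool × Bool, q2 ≠ (false, false) → ∃ t₀ : Fin 3,
        q2 = lk t₀ (false, false) := by decide
    obtain ⟨t₀, h⟩ := h3 q2 this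
    exact ⟨t₀, by rw [h]⟩
  subst ht₀
  have hne : ∀ t, t ≠ t₀ → Quot.mk (relAT a (tOff s e)) (e, (false, false)) ≠
      Quot.mk (relAT a (tOff s e)) (e, lk t (false, false)) := by
    intro t ht h
    rcases huniq (e, lk t (false, false)) (tOff_fixed.2 rfl) h with h | h
    · exact lk_ne t _ (Prod.mk.inj h).2
    · have h3 : ∀ t t₀ : Fin 3, lk t (false, false) = lk t₀ (false, false) → t = t₀ := by decide
      exact ht (h3 t t₀ (Prod.mk.inj h).2)
  refine ⟨t₀, ?_, hne, ?_⟩
  · -- the other two points
    obtain ⟨t, ht⟩ : ∃ t : Fin 3, t ≠ t₀ := by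
      have h5 : ∀ t₀ : Fin 3, ∃ t : Fin 3, t ≠ t₀ := by decide
      exact h5 t₀
    obtain ⟨q', hqp', hq', hpq', huniq', -⟩ := pairing ha hfp (tOff_tOff s e)
      (p := (e, lk t (false, false))) (tOff_fixed.2 rfl)
    have hqe' : q'.1 = e := tOff_fixed.1 hq'
    have hq2 : q' = (e, lk t₀ (lk t (false, false))) := by
      obtain ⟨q1, q2⟩ := q'
      change q1 = e at hqe'
      subst hqe'
      rcases lk_cases t t₀ ht q2 with h | h | h | h
      · exfalso
        rw [h] at hpq'
        exact hne t ht hpq'.symm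
      · exfalso
        rw [h] at hpq'
        exact hne t ht (hpq.trans hpq'.symm)
      · exact absurd (by rw [h]) hqp'
      · rw [h]
    rw [hq2] at hpq'
    intro b
    rcases lk_cases t t₀ ht b with h | h | h | h
    · rw [h]; exact hpq
    · rw [h, lk_lk]; exact hpq.symm
    · rw [h]; exact hpq'
    · rw [h, lk_lk]; exact hpq'.symm
  · intro hs h2
    have := hsig (fun x => x.2.2) hσ (by
      intro x hx
      unfold tOff at hx ⊢
      by_cases h : x.1 = e
      · exact absurd (if_pos h) hx
      · rw [if_neg h]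
        have h3 : ∀ (t : Fin 3) (b : Bool × Bool), t ≠ 2 → (lk t b).2 = !b.2 := by decide
        exact h3 (s x.1) x.2 (hs _ h))
    rw [h2] at this
    exact absurd (show (lk 2 (false, false)).2 = !false from this) (by decide)

/-- The numbers of classes of the three states at one element. -/
theorem step [Fintype M] {a : Pt M → Pt M} (ha : ∀ x, a (a x) = x)
    (hσ : ∀ x, (a x).2.2 = !x.2.2) (s : M → Fin 3) (e : M) :
    ∃ (r : ℕ) (t₀ : Fin 3), cc a (Function.update s e t₀) = r ∧
      (∀ t, t ≠ t₀ → cc a (Function.update s e t) + 1 = r) ∧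
      ((∀ e', e' ≠ e → s e' ≠ 2) → t₀ ≠ 2) ∧
      ∀ t b, Quot.mk (relS a (Function.update s e t)) (e, b) =
        Quot.mk (relS a (Function.update s e t)) (e, lk t₀ b) := by
  obtain ⟨t₀, h1, h2, h3⟩ := exists_type ha hσ s e
  have hR : ∀ t x y, relAT a (tOff s e) x y → Quot.mk (relS a (Function.update s e t)) x =
      Quot.mk (relS a (Function.update s e t)) y := by
    intro t x y h
    rcases h with rfl | rfl
    · exact Quot.sound (Or.inl rfl)
    · unfold tOff
      by_cases h : x.1 = e
      · rw [if_pos h]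
      · rw [if_neg h]
        refine Quot.sound (Or.inr ?_)
        unfold link
        rw [Function.update_of_ne h]
  refine ⟨ncl (relAT a (tOff s e)), t₀, ?_, ?_, h3, ?_⟩
  · refine ncl_congr ?_ (hR t₀)
    intro x y h
    rcases h with rfl | rfl
    · exact Quot.sound (Or.inl rfl)
    · by_cases h : x.1 = e
      · obtain ⟨x1, x2⟩ := x
        change x1 = e at h
        subst h
        unfold link
        simp only [Function.update_self]
        exact h1 x2
      · refine Quot.sound (Or.inr ?_)
        unfold tOff link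
        rw [if_neg h, Function.update_of_ne h]
  · intro t ht
    refine ncl_merge (h2 t ht) (hR t) ?_ ?_
    · refine Quot.sound (Or.inr ?_)
      unfold link
      simp only [Function.update_self]
    · intro x y h
      rcases h with rfl | rfl
      · exact Or.inl (Quot.sound (Or.inl rfl))
      · by_cases h : x.1 = e
        · right
          obtain ⟨x1, x2⟩ := x
          change x1 = e at h
          subst h
          unfold link
          simp only [Function.update_self]
          rcases lk_cases t t₀ ht x2 with h | h | h | h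
          · rw [h]; exact Or.inl ⟨rfl, rfl⟩
          · rw [h]
            refine Or.inl ⟨(h1 _).symm, ?_⟩
            rw [lk_comm t t₀]; exact (h1 _).symm
          · rw [h]
            refine Or.inr ⟨rfl, ?_⟩
            rw [lk_lk]
          · rw [h]
            refine Or.inr ⟨(h1 _).symm, ?_⟩
            rw [lk_comm t t₀, lk_lk]; exact (h1 _).symm
        · left
          refine Quot.sound (Or.inr ?_)
          unfold tOff link
          rw [if_neg h, Function.update_of_ne h]
  · intro t b
    have h4 : ∀ x y, Quot.mk (relAT a (tOff s e)) x = Quot.mk (relAT a (tOff s e)) y →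
        Quot.mk (relS a (Function.update s e t)) x =
        Quot.mk (relS a (Function.update s e t)) y := by
      intro x y h
      exact congrArg (Quot.lift (Quot.mk (relS a (Function.update s e t))) (hR t)) h
    exact h4 _ _ (h1 b)

/-- The three-term relation. -/
theorem three_term [Fintype M] {a : Pt M → Pt M} (ha : ∀ x, a (a x) = x)
    (hσ : ∀ x, (a x).2.2 = !x.2.2) (s : M → Fin 3) (e : M) :
    ∑ t : Fin 3, (-2 : ℤ) ^ cc a (Function.update s e t) = 0 := by
  obtain ⟨r, t₀, h1, h2, -, -⟩ := step ha hσ s e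
  rw [Fin.sum_univ_three]
  have h6 : ∀ c : Fin 3 → ℕ, c t₀ = r → (∀ t, t ≠ t₀ → c t + 1 = r) →
      (-2 : ℤ) ^ c 0 + (-2) ^ c 1 + (-2) ^ c 2 = 0 := by
    clear h1 h2
    intro c h1 h2
    have key : ∀ x y z : ℕ, x = r → y + 1 = r → z + 1 = r →
        (-2 : ℤ) ^ x + (-2) ^ y + (-2) ^ z = 0 := by
      intro x y z hx hy hz
      have : z = y := by omega
      subst this
      have : x = z + 1 := by omega
      subst this
      rw [pow_succ]
      ring
    have h0 : t₀ = 0 ∨ t₀ = 1 ∨ t₀ = 2 := by
      have h5 : ∀ t₀ : Fin 3, t₀ = 0 ∨ t₀ = 1 ∨ t₀ = 2 := by decide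
      exact h5 t₀
    rcases h0 with rfl | rfl | rfl
    · exact key _ _ _ h1 (h2 1 (by decide)) (h2 2 (by decide))
    · have := key _ _ _ h1 (h2 0 (by decide)) (h2 2 (by decide))
      linarith
    · have := key _ _ _ h1 (h2 0 (by decide)) (h2 1 (by decide))
      linarith
  exact h6 (fun t => cc a (Function.update s e t)) h1 h2

end Pool.Agent.H21.PT
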