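import Pool.Agent.H21.PT.Comp

/-!
# Two components
-/

namespace Pool.Agent.H21.PT

open Pool.Agent.H66.GD
open scoped Classical

universe u

variable {V : Type u}

theorem comps_pos [Finite V] [Nonempty V] (H : SimpleGraph V) : 0 < comps H := by
  unfold comps
  have : Finite H.ConnectedComponent := Quot.finite _
  exact Nat.card_pos

theorem comps_eq_one (H : SimpleGraph V) (hH : H.Connected) : comps H = 1 := by
  unfold comps
  rw [Nat.card_eq_one_iff_unique]
  refine ⟨⟨fun a b => ?_⟩, ?_⟩
  · induction a using SimpleGraph.ConnectedComponent.ind with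
    | h a =>
      induction b using SimpleGraph.ConnectedComponent.ind with
      | h b =>
        rw [SimpleGraph.ConnectedComponent.eq]
        exact hH.preconnected a b
  · obtain ⟨v⟩ := hH.nonempty
    exact ⟨H.connectedComponentMk v⟩

theorem side_of_reachable {H : SimpleGraph V} {S : Set V}
    (hno : ∀ u ∈ S, ∀ v ∉ S, ¬ H.Adj u v) {u v : V} (h : H.Reachable u v) : u ∈ S ↔ v ∈ S := by
  obtain ⟨W⟩ := h
  induction W with
  | nil => exact Iff.rfl
  | @cons a b c hadj _ ih =>
    rw [← ih]
    constructor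
    · intro ha
      by_contra hb
      exact hno a ha b hb hadj
    · intro hb
      by_contra ha
      exact hno b hb a ha hadj.symm

theorem comps_eq_two (H : SimpleGraph V) (S : Set V) (hS : ∀ u ∈ S, ∀ v ∈ S, H.Reachable u v)
    (hS' : ∀ u ∉ S, ∀ v ∉ S, H.Reachable u v) (hne : S.Nonempty) (hne' : Sᶜ.Nonempty)
    (hno : ∀ u ∈ S, ∀ v ∉ S, ¬ H.Adj u v) : comps H = 2 := by
  obtain ⟨a, ha⟩ := hne
  obtain ⟨b, hb⟩ := hne'
  unfold comps
  rw [Nat.card_eq_two_iff]
  refine ⟨H.connectedComponentMk a, H.connectedComponentMk b, ?_, ?_⟩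
  · intro h
    rw [SimpleGraph.ConnectedComponent.eq] at h
    exact hb ((side_of_reachable hno h).1 ha)
  · ext c
    induction c using SimpleGraph.ConnectedComponent.ind with
    | h c =>
      simp only [Set.mem_insert_iff, Set.mem_singleton_iff, Set.mem_univ, iff_true,
        SimpleGraph.ConnectedComponent.eq]
      by_cases hc : c ∈ S
      · exact Or.inl (hS c hc a ha)
      · exact Or.inr (hS' c hc b hb)

/-- If the edges of weight one form two components, then `forestSum` is `1 - m`. -/
theorem forestSum_two [Fintype V] (G : SimpleGraph V) (w : Sym2 V → ℕ) (S : Set V)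
    (hS : ∀ u ∈ S, ∀ v ∈ S, (oneUnion G w ∅).Reachable u v)
    (hS' : ∀ u ∉ S, ∀ v ∉ S, (oneUnion G w ∅).Reachable u v) (hne : S.Nonempty)
    (hne' : Sᶜ.Nonempty) (hno : ∀ u ∈ S, ∀ v ∉ S, ¬ (oneUnion G w ∅).Adj u v) :
    forestSum G w = 1 - crossing G w S := by
  have hV : Nonempty V := ⟨hne.some⟩
  have h0 : comps (oneUnion G w ∅) = 2 := comps_eq_two _ S hS hS' hne hne' hno
  have hmono : ∀ X : Finset (Sym2 V), oneUnion G w ∅ ≤ oneUnion G w X := by
    intro X u v h
    rw [oneUnion_adj] at h ⊢
    exact ⟨h.1, Or.inl (h.2.resolve_right (Finset.notMem_empty _))⟩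
  have h1 : ∀ e, ForestOver G w {e} ↔ (e ∈ G.edgeSet ∧ w e = 2 ∧
      ∃ u ∈ S, ∃ v ∉ S, e = s(u, v)) := by
    intro e
    unfold ForestOver
    rw [h0, Finset.card_singleton]
    constructor
    · rintro ⟨h1, h2⟩
      obtain ⟨h3, h4⟩ := h1 e (Finset.mem_singleton_self e)
      refine ⟨h3, h4, ?_⟩
      by_contra hc
      have h5 : comps (oneUnion G w {e}) = 2 := by
        refine comps_eq_two _ S (fun u hu v hv => (hS u hu v hv).mono (hmono _))
          (fun u hu v hv => (hS' u hu v hv).mono (hmono _)) hne hne' ?_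
        intro u hu v hv h
        rw [oneUnion_adj] at h
        rcases h.2 with h6 | h6
        · exact hno u hu v hv (by rw [oneUnion_adj]; exact ⟨h.1, Or.inl h6⟩)
        · rw [Finset.mem_singleton] at h6
          exact hc ⟨u, hu, v, hv, h6.symm⟩
      omega
    · rintro ⟨h3, h4, u, hu, v, hv, rfl⟩
      refine ⟨fun e he => ?_, ?_⟩
      · rw [Finset.mem_singleton] at he
        subst he
        exact ⟨h3, h4⟩
      · have huv : (oneUnion G w {s(u, v)}).Adj u v := by
          rw [oneUnion_adj]
          exact ⟨h3, Or.inr (Finset.mem_singleton_self _)⟩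
        have h5 : ∀ x, (oneUnion G w {s(u, v)}).Reachable u x := by
          intro x
          by_cases hx : x ∈ S
          · exact (hS u hu x hx).mono (hmono _)
          · exact huv.reachable.trans ((hS' v hv x hx).mono (hmono _))
        have h6 : (oneUnion G w {s(u, v)}).Connected :=
          ⟨fun x y => (h5 x).symm.trans (h5 y)⟩
        rw [comps_eq_one _ h6]
  have h2 : ForestOver G w ∅ := ⟨fun e he => absurd he (Finset.notMem_empty e), by simp⟩
  have h3 : ∀ X : Finset (Sym2 V), ForestOver G w X → X = ∅ ∨ ∃ e, X = {e} := by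
    intro X hX
    have h4 := hX.2
    have h5 := comps_pos (oneUnion G w X)
    have h6 : X.card ≤ 1 := by omega
    rcases Nat.eq_zero_or_pos X.card with h7 | h7
    · exact Or.inl (Finset.card_eq_zero.1 h7)
    · exact Or.inr (Finset.card_eq_one.1 (by omega))
  unfold forestSum crossing
  rw [← Finset.sum_filter]
  have h4 : Finset.univ.filter (fun X : Finset (Sym2 V) => ForestOver G w X) =
      insert ∅ ((Finset.univ.filter fun e => e ∈ G.edgeSet ∧ w e = 2 ∧
        ∃ u ∈ S, ∃ v ∉ S, e = s(u, v)).map ⟨fun e => ({e} : Finset (Sym2 V)),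
          Finset.singleton_injective⟩) := by
    ext X
    simp only [Finset.mem_filter, Finset.mem_univ, true_and, Finset.mem_insert, Finset.mem_map,
      Function.Embedding.coeFn_mk]
    constructor
    · intro hX
      rcases h3 X hX with rfl | ⟨e, rfl⟩
      · exact Or.inl rfl
      · exact Or.inr ⟨e, (h1 e).1 hX, rfl⟩
    · rintro (rfl | ⟨e, he, rfl⟩)
      · exact h2
      · exact (h1 e).2 he
  rw [h4, Finset.sum_insert, Finset.sum_map]
  · simp only [Finset.card_empty, pow_zero, Function.Embedding.coeFn_mk, Finset.card_singleton,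
      pow_one, Finset.sum_const, nsmul_eq_mul, mul_neg, mul_one]
    rw [Set.ncard_eq_toFinset_card', sub_eq_add_neg]
    congr 4
    ext e
    simp
    tauto
  · simp only [Finset.mem_map, Function.Embedding.coeFn_mk, not_exists, not_and]
    intro e _ h
    exact Finset.singleton_ne_empty e h

end Pool.Agent.H21.PT
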